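import Mathlib

set_option autoImplicit false

namespace Pool.Agent.TH0.RV

open MeasureTheory Real Set

/-- coefficient on naturals -/
noncomputable def cn (m : ℕ) : ℝ := if m = 2 ^ (Nat.log 2 m) ∧ 2 ≤ m then 1 / (2 * (Nat.log 2 m : ℝ)) else 0

theorem cn_pow (j : ℕ) : cn (2 ^ (j + 1)) = 1 / (2 * ((j : ℝ) + 1)) := by
  unfold cn
  have h1 : Nat.log 2 (2 ^ (j + 1)) = j + 1 := Nat.log_pow (by norm_num) _
  have h2 : 2 ≤ 2 ^ (j + 1) := by
    calc 2 = 2 ^ 1 := by norm_num
      _ ≤ 2 ^ (j + 1) := Nat.pow_le_pow_right (by norm_num) (by omega)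
  rw [h1, if_pos ⟨rfl, h2⟩]
  push_cast
  ring

theorem cn_zero : cn 0 = 0 := by
  unfold cn; rw [if_neg]; simp

theorem summable_cn : Summable (fun m : ℕ => cn m ^ 2) := by
  have hinj : Function.Injective (fun j : ℕ => 2 ^ (j + 1)) := by
    intro a b hab
    have : a + 1 = b + 1 := Nat.pow_right_injective (le_refl 2) hab
    omega
  rw [← hinj.summable_iff]
  · have : (fun m : ℕ => cn m ^ 2) ∘ (fun j : ℕ => 2 ^ (j + 1)) = fun j : ℕ => (1 / 4) * (1 / ((j : ℝ) + 1) ^ 2) := by
      funext j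
      simp only [Function.comp_apply, cn_pow]
      have : ((j : ℝ) + 1) ≠ 0 := by positivity
      field_simp
      norm_num
    rw [this]
    apply Summable.mul_left
    have h := (summable_nat_add_iff 1).2 (Real.summable_one_div_nat_pow.2 (by norm_num : 1 < 2))
    refine h.congr (fun j => ?_)
    push_cast
    rfl
  · intro m hm
    unfold cn
    rw [if_neg]
    · norm_num
    · rintro ⟨h1, h2⟩
      apply hm
      refine ⟨Nat.log 2 m - 1, ?_⟩
      have h3 : 1 ≤ Nat.log 2 m := Nat.log_pos (by norm_num) h2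
      show 2 ^ (Nat.log 2 m - 1 + 1) = m
      rw [Nat.sub_add_cancel h3]
      exact h1.symm

/-- coefficients on integers -/
noncomputable def cz (n : ℤ) : ℂ := ((cn n.natAbs : ℝ) : ℂ)

theorem memlp_cz : Memℓp cz 2 := by
  rw [memℓp_gen_iff (by norm_num)]
  have h : (fun i : ℤ => ‖cz i‖ ^ (2 : ENNReal).toReal) = fun i : ℤ => cn i.natAbs ^ 2 := by
    funext i
    simp [cz, sq_abs]
  rw [h]
  apply Summable.of_nat_of_neg
  · simpa using summable_cn
  · simpa using summable_cn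

theorem exists_Omega : ∃ Ω : ℝ → ℝ, Measurable Ω ∧
    IntegrableOn (fun θ => Ω θ ^ 2) (Ioc (-π) π) ∧ (∫ θ in Ioc (-π) π, Ω θ) = 0 ∧
    ∀ j : ℕ, (∫ θ in Ioc (-π) π, Ω θ * Real.cos (((2 ^ (j + 1) : ℕ) : ℝ) * θ)) = π / (j + 1) := by
  haveI : Fact (0 < 2 * π) := ⟨Real.two_pi_pos⟩
  let F : Lp ℂ 2 (@AddCircle.haarAddCircle (2 * π) _) := (fourierBasis (T := 2 * π)).repr.symm ⟨cz, memlp_cz⟩
  have hF : ∀ n : ℤ, fourierCoeff (F : AddCircle (2 * π) → ℂ) n = cz n := by
    intro n
    rw [← fourierBasis_repr]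
    simp [F]
  have hmeas : Measurable (F : AddCircle (2 * π) → ℂ) := (Lp.stronglyMeasurable F).measurable
  have hmk : Measurable (fun θ : ℝ => (θ : AddCircle (2 * π))) := AddCircle.measurable_mk'
  have hL2 : MemLp (F : AddCircle (2 * π) → ℂ) 2 AddCircle.haarAddCircle := Lp.memLp F
  -- square integrability on the interval
  have hpres := AddCircle.measurePreserving_mk (2 * π) (-π)
  have hpi : (-π) + 2 * π = π := by ring
  rw [hpi] at hpres
  have hL2' : MemLp (F : AddCircle (2 * π) → ℂ) 2 (volume : Measure (AddCircle (2 * π))) := by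
    rw [AddCircle.volume_eq_smul_haarAddCircle]
    exact hL2.smul_measure ENNReal.ofReal_ne_top
  have hL2'' : MemLp (fun θ : ℝ => F (θ : AddCircle (2 * π))) 2 (volume.restrict (Ioc (-π) π)) :=
    hL2'.comp_measurePreserving hpres
  have hint : Integrable (fun θ : ℝ => F (θ : AddCircle (2 * π))) (volume.restrict (Ioc (-π) π)) :=
    hL2''.integrable (by norm_num)
  have hRe : MemLp (fun θ : ℝ => (F (θ : AddCircle (2 * π))).re) 2 (volume.restrict (Ioc (-π) π)) :=
    hL2''.re
  -- Fourier coefficients as integrals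
  have hcoef : ∀ n : ℤ, ∫ θ in Ioc (-π) π, fourier (-n) (θ : AddCircle (2 * π)) * F (θ : AddCircle (2 * π)) = (2 * π) * cz n := by
    intro n
    have h1 := fourierCoeff_eq_intervalIntegral (F : AddCircle (2 * π) → ℂ) n (-π)
    rw [hF, hpi, intervalIntegral.integral_of_le (by linarith [Real.pi_pos])] at h1
    rw [h1]
    simp only [smul_eq_mul]
    rw [Complex.real_smul]
    push_cast
    have : (π : ℂ) ≠ 0 := by exact_mod_cast Real.pi_ne_zero
    field_simp
  refine ⟨fun θ => (F (θ : AddCircle (2 * π))).re, ?_, ?_, ?_, ?_⟩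
  · exact Complex.measurable_re.comp (hmeas.comp hmk)
  · exact hRe.integrable_sq
  · have h0 := hcoef 0
    simp only [neg_zero, fourier_zero, one_mul] at h0
    have : cz 0 = 0 := by simp [cz, cn_zero]
    rw [this, mul_zero] at h0
    have h1 := integral_re hint
    have h2 : ∫ θ in Ioc (-π) π, (F (θ : AddCircle (2 * π))).re = (∫ θ in Ioc (-π) π, F (θ : AddCircle (2 * π))).re := h1
    rw [h2, h0, Complex.zero_re]
  · intro j
    have hp := hcoef ((2 ^ (j + 1) : ℕ) : ℤ)
    have hm := hcoef (-((2 ^ (j + 1) : ℕ) : ℤ))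
    set N : ℕ := 2 ^ (j + 1) with hN
    have hcz1 : cz ((N : ℕ) : ℤ) = ((1 / (2 * ((j : ℝ) + 1)) : ℝ) : ℂ) := by
      simp only [cz, Int.natAbs_natCast]
      rw [hN, cn_pow]
    have hcz2 : cz (-((N : ℕ) : ℤ)) = ((1 / (2 * ((j : ℝ) + 1)) : ℝ) : ℂ) := by
      simp only [cz, Int.natAbs_neg, Int.natAbs_natCast]
      rw [hN, cn_pow]
    rw [hcz1] at hp
    rw [hcz2] at hm
    have hcont : ∀ n : ℤ, Continuous (fun θ : ℝ => fourier n (θ : AddCircle (2 * π))) := by
      intro n
      exact (fourier n).continuous.comp (AddCircle.continuous_mk' _)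
    have hbd : ∀ n : ℤ, ∀ θ : ℝ, ‖fourier n (θ : AddCircle (2 * π))‖ ≤ 1 := by
      intro n θ
      rw [fourier_apply]
      exact le_of_eq (Circle.norm_coe _)
    have hi : ∀ n : ℤ, Integrable (fun θ : ℝ => fourier n (θ : AddCircle (2 * π)) * F (θ : AddCircle (2 * π))) (volume.restrict (Ioc (-π) π)) := by
      intro n
      exact hint.bdd_mul (hcont n).aestronglyMeasurable (Filter.Eventually.of_forall (hbd n))
    have hcos : ∀ θ : ℝ, (Real.cos ((N : ℝ) * θ) : ℂ) * F (θ : AddCircle (2 * π)) =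
        (1 / 2) * (fourier (-(N : ℤ)) (θ : AddCircle (2 * π)) * F (θ : AddCircle (2 * π)) +
          fourier (-(-(N : ℤ))) (θ : AddCircle (2 * π)) * F (θ : AddCircle (2 * π))) := by
      intro θ
      rw [fourier_coe_apply, fourier_coe_apply]
      have hpi0 : (π : ℂ) ≠ 0 := by exact_mod_cast Real.pi_ne_zero
      have e1 : (2 * (π : ℂ) * Complex.I * ((-(N : ℤ) : ℤ) : ℂ) * (θ : ℂ) / ((2 * π : ℝ) : ℂ)) = -((N : ℂ) * θ * Complex.I) := by
        push_cast
        field_simp
      have e2 : (2 * (π : ℂ) * Complex.I * ((-(-(N : ℤ)) : ℤ) : ℂ) * (θ : ℂ) / ((2 * π : ℝ) : ℂ)) = ((N : ℂ) * θ * Complex.I) := by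
        push_cast
        field_simp
      rw [e1, e2]
      push_cast
      rw [Complex.cos]
      ring_nf
    have h3 : ∫ θ in Ioc (-π) π, (Real.cos ((N : ℝ) * θ) : ℂ) * F (θ : AddCircle (2 * π)) = ((π / (j + 1) : ℝ) : ℂ) := by
      rw [integral_congr_ae (Filter.Eventually.of_forall hcos), integral_const_mul, integral_add (hi _) (hi _), hp, hm]
      push_cast
      have : ((j : ℂ) + 1) ≠ 0 := by exact_mod_cast Nat.succ_ne_zero j
      field_simp
      ring
    have hicos : Integrable (fun θ : ℝ => (Real.cos ((N : ℝ) * θ) : ℂ) * F (θ : AddCircle (2 * π))) (volume.restrict (Ioc (-π) π)) := by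
      refine hint.bdd_mul (c := 1) ?_ ?_
      · exact (by fun_prop : Continuous (fun θ : ℝ => (Real.cos ((N : ℝ) * θ) : ℂ))).aestronglyMeasurable
      · refine Filter.Eventually.of_forall (fun θ => ?_)
        rw [Complex.norm_real]
        exact Real.abs_cos_le_one _
    have h4 := integral_re hicos
    have h5 : ∫ θ in Ioc (-π) π, ((Real.cos ((N : ℝ) * θ) : ℂ) * F (θ : AddCircle (2 * π))).re = π / (j + 1) := by
      have h6 : ∫ θ in Ioc (-π) π, ((Real.cos ((N : ℝ) * θ) : ℂ) * F (θ : AddCircle (2 * π))).re = (∫ θ in Ioc (-π) π, (Real.cos ((N : ℝ) * θ) : ℂ) * F (θ : AddCircle (2 * π))).re := h4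
      rw [h6, h3, Complex.ofReal_re]
    rw [← h5]
    congr 1
    funext θ
    rw [Complex.re_ofReal_mul]
    ring

end Pool.Agent.TH0.RV
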