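import Pool.Agent.TH0.RV.MainC
import Pool.Agent.TH0.RV.Omega

set_option autoImplicit false

namespace Pool.Agent.TH0.RV

open MeasureTheory Real Set Filter Topology Metric

/-- the plane as complex numbers -/
noncomputable def ph : EuclideanSpace ℝ (Fin 2) ≃ₗᵢ[ℝ] ℂ := Complex.orthonormalBasisOneI.repr.symm

theorem ph_mp : MeasurePreserving ph (volume : Measure (EuclideanSpace ℝ (Fin 2))) (volume : Measure ℂ) := ph.measurePreserving

theorem ph_emb : MeasurableEmbedding ph := ph.toHomeomorph.measurableEmbedding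

theorem ph_norm (x : EuclideanSpace ℝ (Fin 2)) : ‖ph x‖ = ‖x‖ := ph.norm_map x

theorem pre_ball : ph ⁻¹' (ball (0 : ℂ) 1) = ball (0 : EuclideanSpace ℝ (Fin 2)) 1 := by
  ext x
  simp only [mem_preimage, mem_ball_zero_iff, ph_norm]

theorem avg_transfer (h : ℂ → ℝ) : (⨍ x in ball (0 : EuclideanSpace ℝ (Fin 2)) 1, h (ph x)) = ⨍ z in ball (0 : ℂ) 1, h z := by
  rw [setAverage_eq, setAverage_eq, ← pre_ball, ph_mp.setIntegral_preimage_emb ph_emb]
  congr 2
  rw [Measure.real, Measure.real, ph_mp.measure_preimage_emb ph_emb]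

section
variable {Ω : ℝ → ℝ} (hΩ : Ang Ω)
include hΩ

omit hΩ in
theorem annulus_meas : MeasurableSet {z : ℂ | 1 ≤ ‖z‖ ∧ ‖z‖ ≤ 2} :=
  (measurableSet_le measurable_const measurable_norm).inter (measurableSet_le measurable_norm measurable_const)

theorem kern_int_annulus : IntegrableOn (kern Ω) {z : ℂ | 1 ≤ ‖z‖ ∧ ‖z‖ ≤ 2} := by
  have h := (kT_integrable hΩ 2).integrableOn (s := {z : ℂ | 1 ≤ ‖z‖ ∧ ‖z‖ ≤ 2})
  refine h.congr_fun ?_ annulus_meas
  intro z hz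
  have hz' : 1 ≤ ‖z‖ ∧ ‖z‖ ≤ 2 := hz
  simp only [kT]
  rw [if_pos hz', one_mul]

theorem kern_zero_annulus : (∫ z in {z : ℂ | 1 ≤ ‖z‖ ∧ ‖z‖ ≤ 2}, kern Ω z) = 0 := by
  have h := integral_polar_prod (fun r => (if 1 ≤ r ∧ r ≤ 2 then (1 : ℝ) else 0) / r ^ 2) Ω
  rw [hΩ.zero, mul_zero] at h
  refine Eq.trans ?_ h
  rw [← integral_indicator annulus_meas]
  congr 1
  funext z
  by_cases hz : z ∈ {z : ℂ | 1 ≤ ‖z‖ ∧ ‖z‖ ≤ 2}
  · have hz' : 1 ≤ ‖z‖ ∧ ‖z‖ ≤ 2 := hz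
    rw [indicator_of_mem hz, if_pos hz', kern]
    ring
  · have hz' : ¬ (1 ≤ ‖z‖ ∧ ‖z‖ ≤ 2) := hz
    rw [indicator_of_notMem hz, if_neg hz']
    ring

theorem kern_sq_annulus : IntegrableOn (fun z => kern Ω z ^ 2) {z : ℂ | 1 ≤ ‖z‖ ∧ ‖z‖ ≤ 2} := by
  have hh : Measurable (fun r : ℝ => (if 1 ≤ r ∧ r ≤ 2 then (1 : ℝ) else 0) / r ^ 4) := by
    apply Measurable.div _ (by fun_prop)
    exact Measurable.ite (measurableSet_Icc : MeasurableSet (Icc (1 : ℝ) 2)) measurable_const measurable_const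
  have h := integrable_polar_prod (fun r => (if 1 ≤ r ∧ r ≤ 2 then (1 : ℝ) else 0) / r ^ 4) (fun θ => Ω θ ^ 2) hh (hΩ.meas.pow_const 2) ?_ hΩ.sq
  · refine (h.integrableOn (s := {z : ℂ | 1 ≤ ‖z‖ ∧ ‖z‖ ≤ 2})).congr_fun ?_ annulus_meas
    intro z hz
    have hz' : 1 ≤ ‖z‖ ∧ ‖z‖ ≤ 2 := hz
    simp only [kern]
    rw [if_pos hz']
    ring
  · refine Integrable.mono' (g := (Icc (1 : ℝ) 2).indicator (fun _ => (1 : ℝ))) ?_ (measurable_id.mul hh).aestronglyMeasurable ?_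
    · apply Integrable.integrableOn
      exact (integrableOn_const measure_Icc_lt_top.ne).integrable_indicator measurableSet_Icc
    · refine Filter.Eventually.of_forall (fun r => ?_)
      by_cases h : 1 ≤ r ∧ r ≤ 2
      · have hmem : r ∈ Icc (1 : ℝ) 2 := h
        rw [indicator_of_mem hmem, if_pos h]
        have h1 : (0 : ℝ) < r := by linarith [h.1]
        rw [Real.norm_eq_abs, abs_of_nonneg (by positivity), ← mul_div_assoc, mul_one, div_le_one (by positivity)]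
        nlinarith [h.1, one_le_pow₀ h.1 (n := 3)]
      · have hmem : r ∉ Icc (1 : ℝ) 2 := h
        rw [indicator_of_notMem hmem, if_neg h]
        simp

theorem kern_log_annulus : IntegrableOn (fun z => |kern Ω z| * max 0 (Real.log |kern Ω z|)) {z : ℂ | 1 ≤ ‖z‖ ∧ ‖z‖ ≤ 2} := by
  refine Integrable.mono' (kern_sq_annulus hΩ) ?_ (Filter.Eventually.of_forall (fun z => ?_))
  · apply Measurable.aestronglyMeasurable
    have hm := (kern_meas hΩ)
    apply Measurable.mul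
    · exact hm.abs
    · exact measurable_const.max (Real.measurable_log.comp hm.abs)
  · rw [norm_mul, Real.norm_eq_abs, Real.norm_eq_abs, abs_abs, abs_of_nonneg (le_max_left 0 (Real.log |kern Ω z|))]
    have h1 : max 0 (Real.log |kern Ω z|) ≤ |kern Ω z| := by
      apply max_le (abs_nonneg _)
      exact Real.log_le_self (abs_nonneg _)
    calc |kern Ω z| * max 0 (Real.log |kern Ω z|) ≤ |kern Ω z| * |kern Ω z| := mul_le_mul_of_nonneg_left h1 (abs_nonneg _)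
      _ = kern Ω z ^ 2 := by rw [← abs_mul, ← sq, abs_of_nonneg (sq_nonneg _)]

omit hΩ in
theorem kern_homog (z : ℂ) (t : ℝ) (ht : 0 < t) : kern Ω (t • z) = t ^ (-((2 : ℕ) : ℤ)) * kern Ω z := by
  unfold kern
  rw [Complex.real_smul, Complex.arg_real_mul _ ht, norm_mul, Complex.norm_real, Real.norm_eq_abs, abs_of_pos ht]
  rw [zpow_neg, zpow_natCast]
  field_simp

end

theorem final :
    ¬ (∀ (n : ℕ), 1 ≤ n →
    ∀ (k : EuclideanSpace ℝ (Fin n) → ℝ), Measurable k →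
    (∀ x : EuclideanSpace ℝ (Fin n), x ≠ 0 → ∀ t : ℝ, 0 < t →
        k (t • x) = t ^ (-(n : ℤ)) * k x) →
    IntegrableOn k {x : EuclideanSpace ℝ (Fin n) | 1 ≤ ‖x‖ ∧ ‖x‖ ≤ 2} volume →
    (∫ x in {x : EuclideanSpace ℝ (Fin n) | 1 ≤ ‖x‖ ∧ ‖x‖ ≤ 2}, k x) = 0 →
    IntegrableOn (fun x => |k x| * max 0 (Real.log |k x|))
        {x : EuclideanSpace ℝ (Fin n) | 1 ≤ ‖x‖ ∧ ‖x‖ ≤ 2} volume →
    ∃ C : ℝ, ∀ (f : EuclideanSpace ℝ (Fin n) → ℝ) (M : ℝ),
      Measurable f → HasCompactSupport f → (∀ x, |f x| ≤ M) →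
      ∀ g : EuclideanSpace ℝ (Fin n) → ℝ,
        (∀ᵐ x ∂(volume : Measure (EuclideanSpace ℝ (Fin n))),
          Tendsto (fun ε : ℝ => ∫ y in {y : EuclideanSpace ℝ (Fin n) | ε < ‖y‖}, k y * f (x - y))
            (𝓝[>] 0) (𝓝 (g x))) →
        ∀ (c : EuclideanSpace ℝ (Fin n)) (r : ℝ), 0 < r →
          IntegrableOn g (ball c r) volume ∧
          (⨍ x in ball c r, |g x - ⨍ y in ball c r, g y|) ≤ C * M) := by
  intro H
  obtain ⟨Ω, h1, h2, h3, h4⟩ := exists_Omega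
  have hΩ : Ang Ω := ⟨h1, h2, h3, h4⟩
  have hpre : ph ⁻¹' {z : ℂ | 1 ≤ ‖z‖ ∧ ‖z‖ ≤ 2} = {x : EuclideanSpace ℝ (Fin 2) | 1 ≤ ‖x‖ ∧ ‖x‖ ≤ 2} := by
    ext x
    simp only [mem_preimage, mem_ofPred_eq, ph_norm]
  obtain ⟨C, hC⟩ := H 2 (by norm_num) (fun x => kern Ω (ph x)) ((kern_meas hΩ).comp ph.continuous.measurable)
    (by
      intro x _ t ht
      simp only [map_smul]
      exact kern_homog (ph x) t ht)
    (by
      rw [← hpre]
      exact (ph_mp.integrableOn_comp_preimage ph_emb).2 (kern_int_annulus hΩ))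
    (by
      rw [← hpre, ph_mp.setIntegral_preimage_emb ph_emb (fun z => kern Ω z)]
      exact kern_zero_annulus hΩ)
    (by
      rw [← hpre]
      exact (ph_mp.integrableOn_comp_preimage ph_emb).2 (kern_log_annulus hΩ))
  obtain ⟨f, hf1, hf2, hf3, g, hg1, hg2⟩ := main_C hΩ C
  apply hg2
  have h5 := hC (fun x => f (ph x)) 1 (hf1.measurable.comp ph.continuous.measurable)
    (hf2.comp_homeomorph ph.toHomeomorph) (fun x => hf3 _) (fun x => g (ph x)) (by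
      refine Filter.Eventually.of_forall (fun x => ?_)
      refine (hg1 (ph x)).congr (fun ε => ?_)
      have hpre2 : ph ⁻¹' {z : ℂ | ε < ‖z‖} = {y : EuclideanSpace ℝ (Fin 2) | ε < ‖y‖} := by
        ext y
        simp only [mem_preimage, mem_ofPred_eq, ph_norm]
      rw [← hpre2, ← ph_mp.setIntegral_preimage_emb ph_emb (fun z => kern Ω z * f (ph x - z))]
      simp only [map_sub]) 0 1 (by norm_num)
  obtain ⟨h6, h7⟩ := h5
  constructor
  · rw [← pre_ball] at h6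
    exact (ph_mp.integrableOn_comp_preimage ph_emb).1 h6
  · rw [mul_one] at h7
    rw [avg_transfer g, avg_transfer (fun z => |g z - ⨍ y in ball (0 : ℂ) 1, g y|)] at h7
    exact h7

end Pool.Agent.TH0.RV
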