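import Pool.Agent.TH0.RV.Lim

set_option autoImplicit false

namespace Pool.Agent.TH0.RV

open MeasureTheory Real Set Filter Topology
open scoped Pointwise

theorem AN_continuous {N : ℕ} (hN : 0 < N) : Continuous (AN N) := by
  unfold AN
  apply continuous_of_dominated (bound := fun x => ‖aa x‖)
  · intro y; exact (integrand_meas N hN y).aestronglyMeasurable
  · intro y
    refine Filter.Eventually.of_forall (fun x => ?_)
    rw [norm_mul, Complex.norm_real]
    exact mul_le_of_le_one_right (norm_nonneg _) (norm_EE_le _ _)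
  · exact aa_integrable.norm
  · refine Filter.Eventually.of_forall (fun x => ?_)
    exact continuous_const.mul ((EE_continuous hN).comp (continuous_id.sub continuous_const))

theorem eta_continuous {N : ℕ} (hN : 0 < N) : Continuous (eta N) :=
  Complex.continuous_re.comp ((AN_continuous hN).comp Complex.continuous_ofReal)

/-- the scale invariant coefficient -/
noncomputable def DN (N : ℕ) : ℝ := ∫ r in Ioi (0 : ℝ), r * (eta N r / r ^ 2)

theorem DN_eq {N : ℕ} (hN : 0 < N) : DN N = ∫ v in Ioi (0 : ℝ), eta N ((N : ℝ) * v) / v := by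
  have hNr : (0 : ℝ) < N := by exact_mod_cast hN
  have h1 := integral_comp_mul_left_Ioi (fun r => r * (eta N r / r ^ 2)) 0 hNr
  rw [mul_zero, smul_eq_mul] at h1
  have h2 : DN N = (N : ℝ) * ∫ v in Ioi (0 : ℝ), ((N : ℝ) * v) * (eta N ((N : ℝ) * v) / ((N : ℝ) * v) ^ 2) := by
    rw [h1]
    unfold DN
    field_simp
  rw [h2, ← integral_const_mul]
  apply setIntegral_congr_fun measurableSet_Ioi
  intro v hv
  have hv' : v ≠ 0 := ne_of_gt hv
  simp only
  field_simp

/-- limit profile -/
noncomputable def WW (v : ℝ) : ℝ := ∫ x, aa x * (chi v * Real.cos (x.im / v))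

theorem abs_eta_le (N : ℕ) (r : ℝ) : |eta N r| ≤ ∫ x, ‖aa x‖ :=
  (Complex.abs_re_le_norm _).trans (norm_AN_le N _)

theorem eta_zero_of {N : ℕ} (hN : 2 ≤ N) {r : ℝ} (hr : 0 < r) (h : r ≤ N / 2 ∨ 3 * N ≤ r) : eta N r = 0 := by
  unfold eta
  rw [AN_zero_of hN, Complex.zero_re]
  rw [Complex.norm_real, Real.norm_eq_abs, abs_of_pos hr]
  exact h

theorem bound_eta {N : ℕ} (hN : 2 ≤ N) {v : ℝ} (hv : 0 < v) :
    ‖eta N ((N : ℝ) * v) / v‖ ≤ (Ioc (0 : ℝ) 3).indicator (fun _ => 2 * ∫ x, ‖aa x‖) v := by
  have hNr : (0 : ℝ) < N := by exact_mod_cast (by omega : 0 < N)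
  have hA : 0 ≤ ∫ x, ‖aa x‖ := integral_nonneg (fun x => norm_nonneg _)
  by_cases h : v ≤ 1 / 2 ∨ 3 ≤ v
  · have : eta N ((N : ℝ) * v) = 0 := by
      apply eta_zero_of hN (by positivity)
      rcases h with h | h
      · left; nlinarith
      · right; nlinarith
    rw [this, zero_div, norm_zero]
    apply indicator_nonneg
    intro _ _
    positivity
  · push Not at h
    have hmem : v ∈ Ioc (0 : ℝ) 3 := ⟨hv, h.2.le⟩
    rw [indicator_of_mem hmem, norm_div, Real.norm_eq_abs, Real.norm_eq_abs, abs_of_pos hv,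
      div_le_iff₀ hv]
    have := abs_eta_le N ((N : ℝ) * v)
    nlinarith

theorem bound_integrable : IntegrableOn ((Ioc (0 : ℝ) 3).indicator (fun _ => 2 * ∫ x, ‖aa x‖)) (Ioi 0) := by
  apply Integrable.integrableOn
  exact (integrableOn_const measure_Ioc_lt_top.ne).integrable_indicator measurableSet_Ioc

theorem DN_tendsto : Tendsto (fun j : ℕ => DN (2 ^ (j + 1))) atTop (𝓝 (∫ v in Ioi (0 : ℝ), WW v / v)) := by
  have hpow : Tendsto (fun j : ℕ => 2 ^ (j + 1)) atTop (atTop : Filter ℕ) :=
    (tendsto_pow_atTop_atTop_of_one_lt (by norm_num : (1 : ℕ) < 2)).comp (tendsto_add_atTop_nat 1)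
  have h : Tendsto (fun j : ℕ => ∫ v in Ioi (0 : ℝ), eta (2 ^ (j + 1)) (((2 ^ (j + 1) : ℕ) : ℝ) * v) / v) atTop
      (𝓝 (∫ v in Ioi (0 : ℝ), WW v / v)) := by
    apply tendsto_integral_of_dominated_convergence ((Ioc (0 : ℝ) 3).indicator (fun _ => 2 * ∫ x, ‖aa x‖))
    · intro j
      apply Measurable.aestronglyMeasurable
      apply Measurable.div _ measurable_id
      exact ((eta_continuous (by positivity)).comp (continuous_const.mul continuous_id)).measurable
    · exact bound_integrable
    · intro j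
      refine (ae_restrict_iff' measurableSet_Ioi).2 (Filter.Eventually.of_forall (fun v hv => ?_))
      exact bound_eta (by
        calc 2 = 2 ^ 1 := by norm_num
          _ ≤ 2 ^ (j + 1) := Nat.pow_le_pow_right (by norm_num) (by omega)) hv
    · refine (ae_restrict_iff' measurableSet_Ioi).2 (Filter.Eventually.of_forall (fun v hv => ?_))
      exact ((eta_lim v hv).comp hpow).div_const v
  refine h.congr (fun j => ?_)
  rw [DN_eq (by positivity)]

theorem WW_integrable : IntegrableOn (fun v => WW v / v) (Ioi 0) := by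
  have hmeas : AEStronglyMeasurable (fun v => WW v / v) (volume.restrict (Ioi 0)) := by
    apply aestronglyMeasurable_of_tendsto_ae atTop (f := fun (N : ℕ) v => eta (N + 1) (((N + 1 : ℕ) : ℝ) * v) / v)
    · intro N
      apply Measurable.aestronglyMeasurable
      apply Measurable.div _ measurable_id
      exact ((eta_continuous (by positivity)).comp (continuous_const.mul continuous_id)).measurable
    · refine (ae_restrict_iff' measurableSet_Ioi).2 (Filter.Eventually.of_forall (fun v hv => ?_))
      exact ((eta_lim v hv).comp (tendsto_add_atTop_nat 1)).div_const v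
  refine Integrable.mono' bound_integrable hmeas ?_
  refine (ae_restrict_iff' measurableSet_Ioi).2 (Filter.Eventually.of_forall (fun v hv => ?_))
  refine le_of_tendsto (((eta_lim v hv).div_const v).norm) ?_
  filter_upwards [eventually_ge_atTop 2] with N hN
  exact bound_eta hN hv

theorem WW_eq (v : ℝ) : WW v = chi v * ∫ x in Metric.ball (0 : ℂ) 1, (Real.cos (x.im / v) - Real.cos (x.im / (2 * v))) := by
  have hc : ∀ u : ℝ, Continuous (fun x : ℂ => Real.cos (x.im / u)) := fun u => by fun_prop
  have hi : ∀ u : ℝ, ∀ ρ : ℝ, IntegrableOn (fun x : ℂ => Real.cos (x.im / u)) (Metric.ball (0 : ℂ) ρ) := by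
    intro u ρ
    refine Integrable.mono' (g := fun _ => (1 : ℝ)) (integrableOn_const measure_ball_lt_top.ne) (hc u).aestronglyMeasurable (Filter.Eventually.of_forall (fun x => ?_))
    exact Real.abs_cos_le_one _
  have h1 : WW v = chi v * ∫ x, aa x * Real.cos (x.im / v) := by
    unfold WW
    rw [← integral_const_mul]
    congr 1
    funext x
    ring
  rw [h1, integral_aa _ (hi v 1), integral_sub (hi v 1) (hi (2 * v) 1)]
  congr 2
  have h2 := Measure.setIntegral_comp_smul (volume : Measure ℂ) (fun x : ℂ => Real.cos (x.im / v)) (R := (1 / 2 : ℝ)) (Metric.ball (0 : ℂ) 1) (by norm_num)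
  have h3 : (1 / 2 : ℝ) • Metric.ball (0 : ℂ) 1 = Metric.ball (0 : ℂ) (1 / 2) := by
    rw [_root_.smul_ball (by norm_num : (1 / 2 : ℝ) ≠ 0), smul_zero]
    norm_num
  rw [h3, Complex.finrank_real_complex] at h2
  have h4 : |((1 / 2 : ℝ) ^ 2)⁻¹| = 4 := by norm_num
  rw [h4, smul_eq_mul] at h2
  rw [← h2]
  congr 1
  funext x
  simp only [Complex.real_smul, Complex.im_ofReal_mul]
  field_simp

end Pool.Agent.TH0.RV
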