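import Pool.Agent.TH0.RV.Test

set_option autoImplicit false

namespace Pool.Agent.TH0.RV

open MeasureTheory Real Set Filter Topology

/-- radial mean zero function -/
noncomputable def aa (x : ℂ) : ℝ :=
  (Metric.ball (0 : ℂ) 1).indicator (fun _ => (1 : ℝ)) x - 4 * (Metric.ball (0 : ℂ) (1 / 2)).indicator (fun _ => (1 : ℝ)) x

theorem aa_eq (x : ℂ) : aa x = (if ‖x‖ < 1 then 1 else 0) - 4 * (if ‖x‖ < 1 / 2 then 1 else 0) := by
  unfold aa
  simp only [indicator, mem_ball_zero_iff]

theorem aa_congr {x y : ℂ} (h : ‖x‖ = ‖y‖) : aa x = aa y := by rw [aa_eq, aa_eq, h]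

theorem aa_measurable : Measurable aa := by
  unfold aa
  exact (measurable_const.indicator Metric.isOpen_ball.measurableSet).sub
    ((measurable_const.indicator Metric.isOpen_ball.measurableSet).const_mul 4)

theorem abs_aa_le (x : ℂ) : |aa x| ≤ 3 := by
  rw [aa_eq]
  split_ifs with h1 h2 h2
  · norm_num
  · norm_num
  · exfalso; linarith
  · norm_num

theorem aa_zero {x : ℂ} (h : 1 ≤ ‖x‖) : aa x = 0 := by
  rw [aa_eq, if_neg (by linarith), if_neg (by linarith)]; simp

theorem aa_integrable : Integrable aa := by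
  unfold aa
  apply Integrable.sub
  · exact (integrableOn_const measure_ball_lt_top.ne).integrable_indicator Metric.isOpen_ball.measurableSet
  · apply Integrable.const_mul
    exact (integrableOn_const measure_ball_lt_top.ne).integrable_indicator Metric.isOpen_ball.measurableSet

/-- integral against aa -/
theorem integral_aa (h : ℂ → ℝ) (hi : IntegrableOn h (Metric.ball (0 : ℂ) 1)) :
    (∫ x, aa x * h x) = (∫ x in Metric.ball (0 : ℂ) 1, h x) - 4 * ∫ x in Metric.ball (0 : ℂ) (1 / 2), h x := by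
  have hi2 : IntegrableOn h (Metric.ball (0 : ℂ) (1 / 2)) := hi.mono_set (Metric.ball_subset_ball (by norm_num))
  have e : ∀ x, aa x * h x = (Metric.ball (0 : ℂ) 1).indicator h x - 4 * (Metric.ball (0 : ℂ) (1 / 2)).indicator h x := by
    intro x
    unfold aa
    simp only [indicator]
    split_ifs <;> ring
  simp_rw [e]
  rw [integral_sub, integral_const_mul, integral_indicator Metric.isOpen_ball.measurableSet,
    integral_indicator Metric.isOpen_ball.measurableSet]
  · exact hi.integrable_indicator Metric.isOpen_ball.measurableSet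
  · exact (hi2.integrable_indicator Metric.isOpen_ball.measurableSet).const_mul 4

/-- averaged test function -/
noncomputable def AN (N : ℕ) (y : ℂ) : ℂ := ∫ x, (aa x : ℂ) * EE N (y - x)

/-- radial profile -/
noncomputable def eta (N : ℕ) (r : ℝ) : ℝ := (AN N (r : ℂ)).re

theorem unit_lim (v : ℝ) (hv : 0 < v) (x : ℂ) :
    Tendsto (fun N : ℕ => EE N ((N : ℂ) * v - x)) atTop
      (𝓝 ((chi v : ℂ) * (Complex.exp (-x / v) / (‖Complex.exp (-x / v)‖ : ℂ)))) := by
  have hvc : (v : ℂ) ≠ 0 := by exact_mod_cast hv.ne'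
  have h1 : Tendsto (fun N : ℕ => (1 + (-x / v) / (N : ℂ)) ^ N) atTop (𝓝 (Complex.exp (-x / v))) :=
    Complex.tendsto_one_add_div_pow_exp _
  have h2 : Tendsto (fun N : ℕ => ((‖(1 + (-x / v) / (N : ℂ)) ^ N‖ : ℝ) : ℂ)) atTop (𝓝 ((‖Complex.exp (-x / v)‖ : ℝ) : ℂ)) :=
    (Complex.continuous_ofReal.tendsto _).comp h1.norm
  have hne : ((‖Complex.exp (-x / v)‖ : ℝ) : ℂ) ≠ 0 := by
    exact_mod_cast norm_ne_zero_iff.2 (Complex.exp_ne_zero _)
  have h3 := h1.div h2 hne
  have h4 : Tendsto (fun N : ℕ => ‖(v : ℂ) - x / (N : ℂ)‖) atTop (𝓝 v) := by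
    have h5 : Tendsto (fun N : ℕ => x / (N : ℂ)) atTop (𝓝 0) := by
      have := tendsto_const_div_atTop_nhds_zero_nat ‖x‖
      rw [tendsto_zero_iff_norm_tendsto_zero]
      refine this.congr (fun N => ?_)
      simp
    have h6 := (tendsto_const_nhds (x := (v : ℂ))).sub h5
    have h7 := h6.norm
    rw [sub_zero, Complex.norm_real, Real.norm_eq_abs, abs_of_pos hv] at h7
    exact h7
  have h5 : Tendsto (fun N : ℕ => ((chi ‖(v : ℂ) - x / (N : ℂ)‖ : ℝ) : ℂ)) atTop (𝓝 ((chi v : ℝ) : ℂ)) :=
    (Complex.continuous_ofReal.tendsto _).comp ((chi_continuous.tendsto v).comp h4)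
  refine (h5.mul h3).congr' ?_
  filter_upwards [eventually_gt_atTop 0] with N hN
  have hN' : (N : ℂ) ≠ 0 := by exact_mod_cast hN.ne'
  have hNr : (0 : ℝ) < N := by exact_mod_cast hN
  unfold EE
  have e1 : (N : ℂ) * v - x = (N : ℂ) * ((v : ℂ) - x / N) := by field_simp
  have e2 : ‖(N : ℂ) * v - x‖ / N = ‖(v : ℂ) - x / N‖ := by
    rw [e1, norm_mul, Complex.norm_natCast]
    field_simp
  have e3 : (N : ℂ) * v - x = (((N : ℝ) * v : ℝ) : ℂ) * (1 + (-x / v) / N) := by
    push_cast
    field_simp
    ring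
  have hNv : 0 < (N : ℝ) * v := by positivity
  rw [e2]
  congr 1
  simp only [Pi.div_apply]
  rw [e3, norm_mul, Complex.norm_real, Real.norm_eq_abs, abs_of_pos hNv, norm_pow]
  have hNvc : (((N : ℝ) * v : ℝ) : ℂ) ≠ 0 := by exact_mod_cast hNv.ne'
  rw [Complex.ofReal_mul ((N : ℝ) * v), mul_div_mul_left _ _ hNvc, div_pow]
  push_cast
  rfl

theorem exp_dir (x : ℂ) (v : ℝ) :
    ((chi v : ℂ) * (Complex.exp (-x / v) / (‖Complex.exp (-x / v)‖ : ℂ))).re = chi v * Real.cos (x.im / v) := by
  rw [Complex.re_ofReal_mul]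
  congr 1
  rw [Complex.norm_exp]
  have h : Complex.exp (-x / v) = Complex.exp (((-x / v).re : ℝ) : ℂ) * Complex.exp ((((-x / v).im : ℝ) : ℂ) * Complex.I) := by
    rw [← Complex.exp_add, Complex.re_add_im]
  rw [h]
  have h2 : ((Real.exp (-x / (v : ℂ)).re : ℝ) : ℂ) = Complex.exp (((-x / v).re : ℝ) : ℂ) := by
    rw [Complex.ofReal_exp]
  rw [h2, mul_comm, mul_div_assoc, div_self (Complex.exp_ne_zero _), mul_one, Complex.exp_ofReal_mul_I_re]
  have h3 : (-x / (v : ℂ)).im = -(x.im / v) := by
    rw [Complex.div_ofReal_im, Complex.neg_im, neg_div]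
  rw [h3, Real.cos_neg]

theorem integrand_meas (N : ℕ) (hN : 0 < N) (y : ℂ) : Measurable (fun x : ℂ => (aa x : ℂ) * EE N (y - x)) := by
  apply Measurable.mul
  · exact Complex.measurable_ofReal.comp aa_measurable
  · exact ((EE_continuous hN).comp (continuous_const.sub continuous_id)).measurable

theorem integrand_integrable (N : ℕ) (hN : 0 < N) (y : ℂ) : Integrable (fun x : ℂ => (aa x : ℂ) * EE N (y - x)) := by
  refine Integrable.mono' aa_integrable.norm (integrand_meas N hN y).aestronglyMeasurable (Filter.Eventually.of_forall (fun x => ?_))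
  rw [norm_mul, Complex.norm_real]
  exact mul_le_of_le_one_right (norm_nonneg _) (norm_EE_le _ _)

theorem norm_AN_le (N : ℕ) (y : ℂ) : ‖AN N y‖ ≤ ∫ x, ‖aa x‖ := by
  unfold AN
  refine (norm_integral_le_integral_norm _).trans ?_
  by_cases hi : Integrable (fun x : ℂ => ‖(aa x : ℂ) * EE N (y - x)‖)
  · apply integral_mono hi aa_integrable.norm
    intro x
    simp only
    rw [norm_mul, Complex.norm_real]
    exact mul_le_of_le_one_right (norm_nonneg _) (norm_EE_le _ _)
  · rw [integral_undef hi]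
    exact integral_nonneg (fun x => norm_nonneg _)

theorem AN_zero_of {N : ℕ} (hN : 2 ≤ N) {y : ℂ} (hy : ‖y‖ ≤ N / 2 ∨ 3 * N ≤ ‖y‖) : AN N y = 0 := by
  unfold AN
  have : ∀ x : ℂ, (aa x : ℂ) * EE N (y - x) = 0 := by
    intro x
    by_cases hx : 1 ≤ ‖x‖
    · rw [aa_zero hx]; simp
    · push Not at hx
      have hN' : (2 : ℝ) ≤ N := by exact_mod_cast hN
      rcases hy with h | h
      · rw [EE_zero_of_le, mul_zero]
        have := norm_sub_le y x
        linarith
      · rw [EE_zero_of_ge (by omega), mul_zero]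
        have := norm_sub_norm_le y x
        linarith
  simp_rw [this]
  simp

theorem eta_lim (v : ℝ) (hv : 0 < v) :
    Tendsto (fun N : ℕ => eta N ((N : ℝ) * v)) atTop (𝓝 (∫ x, aa x * (chi v * Real.cos (x.im / v)))) := by
  have h1 : Tendsto (fun N : ℕ => ∫ x, (aa x : ℂ) * EE N ((N : ℂ) * v - x)) atTop
      (𝓝 (∫ x, (aa x : ℂ) * ((chi v : ℂ) * (Complex.exp (-x / v) / (‖Complex.exp (-x / v)‖ : ℂ))))) := by
    apply tendsto_integral_of_dominated_convergence (fun x => ‖aa x‖)
    · intro N
      rcases Nat.eq_zero_or_pos N with h | h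
      · subst h
        apply Measurable.aestronglyMeasurable
        apply Measurable.mul
        · exact Complex.measurable_ofReal.comp aa_measurable
        · unfold EE
          simp
      · exact (integrand_meas N h _).aestronglyMeasurable
    · exact aa_integrable.norm
    · intro N
      refine Filter.Eventually.of_forall (fun x => ?_)
      rw [norm_mul, Complex.norm_real]
      exact mul_le_of_le_one_right (norm_nonneg _) (norm_EE_le _ _)
    · refine Filter.Eventually.of_forall (fun x => ?_)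
      exact (unit_lim v hv x).const_mul _
  have h2 := (Complex.continuous_re.tendsto _).comp h1
  have h3 : (∫ x, (aa x : ℂ) * ((chi v : ℂ) * (Complex.exp (-x / v) / (‖Complex.exp (-x / v)‖ : ℂ)))).re
      = ∫ x, aa x * (chi v * Real.cos (x.im / v)) := by
    have hi : Integrable (fun x : ℂ => (aa x : ℂ) * ((chi v : ℂ) * (Complex.exp (-x / v) / (‖Complex.exp (-x / v)‖ : ℂ)))) := by
      refine Integrable.mono' aa_integrable.norm ?_ (Filter.Eventually.of_forall (fun x => ?_))
      · apply Measurable.aestronglyMeasurable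
        apply Measurable.mul
        · exact Complex.measurable_ofReal.comp aa_measurable
        · have hm : Measurable (fun x : ℂ => Complex.exp (-x / v)) := by fun_prop
          exact (hm.div (Complex.measurable_ofReal.comp hm.norm)).const_mul _
      · rw [norm_mul, Complex.norm_real, norm_mul, norm_div, Complex.norm_real, Complex.norm_real, norm_norm,
          div_self (norm_ne_zero_iff.2 (Complex.exp_ne_zero _)), mul_one, Real.norm_eq_abs (chi v), abs_of_nonneg (chi_nonneg _)]
        exact mul_le_of_le_one_right (norm_nonneg _) (chi_le_one _)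
    have h4 := integral_re hi
    have h5 : (∫ x, (aa x : ℂ) * ((chi v : ℂ) * (Complex.exp (-x / v) / (‖Complex.exp (-x / v)‖ : ℂ)))).re
      = ∫ x, ((aa x : ℂ) * ((chi v : ℂ) * (Complex.exp (-x / v) / (‖Complex.exp (-x / v)‖ : ℂ)))).re := h4.symm
    rw [h5]
    congr 1
    funext x
    rw [Complex.re_ofReal_mul, exp_dir x v]
  rw [← h3]
  refine h2.congr (fun N => ?_)
  simp only [Function.comp_apply, eta, AN]
  push_cast
  rfl

end Pool.Agent.TH0.RV
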