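import Pool.Agent.TH0.RV.PV

set_option autoImplicit false

namespace Pool.Agent.TH0.RV

open MeasureTheory Real Set Filter Topology

theorem integral_aa_one : (∫ x, aa x) = 0 := by
  have h := integral_aa (fun _ => (1 : ℝ)) (integrableOn_const measure_ball_lt_top.ne)
  simp only [mul_one] at h
  rw [h]
  simp only [integral_const, MeasurableSet.univ, measureReal_restrict_apply, univ_inter, smul_eq_mul, mul_one]
  rw [Measure.real, Measure.real, Complex.volume_ball, Complex.volume_ball]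
  simp only [ENNReal.toReal_mul, ENNReal.toReal_pow, ENNReal.coe_toReal]
  rw [ENNReal.toReal_ofReal (by norm_num), ENNReal.toReal_ofReal (by norm_num)]
  ring

variable {Ω : ℝ → ℝ} (hΩ : Ang Ω)
include hΩ

theorem kern_FF_integrable (j : ℕ) {x : ℂ} (hx : ‖x‖ < 1) :
    Integrable (fun y => kern Ω y * FF (2 ^ (j + 1)) (x - y)) := by
  have hN2 : 2 ≤ 2 ^ (j + 1) := by
    calc 2 = 2 ^ 1 := by norm_num
      _ ≤ 2 ^ (j + 1) := Nat.pow_le_pow_right (by norm_num) (by omega)
  have hFm : Measurable (FF (2 ^ (j + 1))) := (FF_contDiff (by positivity)).continuous.measurable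
  have h1 : Integrable (fun y => kT Ω (2 * ((2 ^ (j + 1) : ℕ) : ℝ) + 1) y * FF (2 ^ (j + 1)) (x - y)) := by
    refine (kT_integrable hΩ _).mul_bdd (c := 1) ?_ (Filter.Eventually.of_forall (fun p => abs_FF_le _ _))
    exact (hFm.comp (measurable_const.sub measurable_id)).aestronglyMeasurable
  refine h1.congr (Filter.Eventually.of_forall (fun y => ?_))
  exact (kern_FF hN2 le_rfl hx y).symm

theorem aa_G_integrable (j : ℕ) : Integrable (fun x => aa x * ∫ y, kern Ω y * FF (2 ^ (j + 1)) (x - y)) := by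
  set N := 2 ^ (j + 1) with hNdef
  have hN2 : 2 ≤ N := by
    calc 2 = 2 ^ 1 := by norm_num
      _ ≤ 2 ^ (j + 1) := Nat.pow_le_pow_right (by norm_num) (by omega)
  set R : ℝ := 2 * (N : ℝ) + 1 with hR
  have hFm : Measurable (FF N) := (FF_contDiff (by omega)).continuous.measurable
  have hprod : Integrable (fun p : ℂ × ℂ => aa p.1 * kT Ω R p.2) (volume.prod volume) :=
    aa_integrable.mul_prod (kT_integrable hΩ R)
  have hint : Integrable (fun p : ℂ × ℂ => aa p.1 * kT Ω R p.2 * FF N (p.1 - p.2)) (volume.prod volume) := by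
    refine hprod.mul_bdd (c := 1) ?_ (Filter.Eventually.of_forall (fun p => abs_FF_le N _))
    exact (hFm.comp (measurable_fst.sub measurable_snd)).aestronglyMeasurable
  refine hint.integral_prod_left.congr (Filter.Eventually.of_forall (fun x => ?_))
  simp only
  by_cases hx : ‖x‖ < 1
  · rw [← integral_const_mul]
    congr 1
    funext y
    rw [kern_FF hN2 le_rfl hx y]
    ring
  · rw [aa_zero (not_lt.1 hx)]; simp

/-- the principal value of the sum -/
noncomputable def gg (Ω : ℝ → ℝ) (S : Finset ℕ) (x : ℂ) : ℝ := ∫ y, kern Ω y * qq (ff S) x y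

theorem gg_eq (S : Finset ℕ) {x : ℂ} (hx : ‖x‖ < 1) :
    gg Ω S x = ∑ j ∈ S, ∫ y, kern Ω y * FF (2 ^ (j + 1)) (x - y) := by
  rw [← integral_finsetSum]
  · unfold gg
    congr 1
    funext y
    unfold qq
    have hx2 : ff S x = 0 := ff_zero_of_le S (by linarith)
    rw [hx2, zero_mul, sub_zero]
    unfold ff
    rw [Finset.mul_sum]
  · intro j _
    exact kern_FF_integrable hΩ j hx

theorem integral_aa_gg (S : Finset ℕ) : (∫ x, aa x * gg Ω S x) = ∑ j ∈ S, DN (2 ^ (j + 1)) * (π / (j + 1)) := by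
  have h1 : (∫ x, aa x * gg Ω S x) = ∫ x, ∑ j ∈ S, aa x * ∫ y, kern Ω y * FF (2 ^ (j + 1)) (x - y) := by
    congr 1
    funext x
    by_cases hx : ‖x‖ < 1
    · rw [gg_eq hΩ S hx, Finset.mul_sum]
    · rw [aa_zero (not_lt.1 hx)]; simp
  rw [h1, integral_finsetSum]
  · apply Finset.sum_congr rfl
    intro j _
    exact pair_one hΩ j
  · intro j _
    exact aa_G_integrable hΩ j

omit hΩ in
/-- test against mean oscillation -/
theorem osc_bound (g : ℂ → ℝ) (hg : IntegrableOn g (Metric.ball (0 : ℂ) 1)) (C : ℝ)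
    (hC : (⨍ x in Metric.ball (0 : ℂ) 1, |g x - ⨍ y in Metric.ball (0 : ℂ) 1, g y|) ≤ C) :
    |∫ x, aa x * g x| ≤ 3 * (volume.real (Metric.ball (0 : ℂ) 1) * C) := by
  set m := ⨍ y in Metric.ball (0 : ℂ) 1, g y with hm
  have hV : 0 < volume.real (Metric.ball (0 : ℂ) 1) :=
    ENNReal.toReal_pos (Metric.measure_ball_pos volume _ (by norm_num)).ne' measure_ball_lt_top.ne
  have hgm : IntegrableOn (fun x => g x - m) (Metric.ball (0 : ℂ) 1) :=
    hg.sub (integrableOn_const measure_ball_lt_top.ne)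
  have hag : Integrable (fun x => aa x * g x) := by
    have h1 : Integrable ((Metric.ball (0 : ℂ) 1).indicator g) := hg.integrable_indicator Metric.isOpen_ball.measurableSet
    have h2 := h1.bdd_mul (c := 3) aa_measurable.aestronglyMeasurable (Filter.Eventually.of_forall (fun x => abs_aa_le x))
    refine h2.congr (Filter.Eventually.of_forall (fun x => ?_))
    simp only
    by_cases hx : x ∈ Metric.ball (0 : ℂ) 1
    · rw [indicator_of_mem hx]
    · rw [indicator_of_notMem hx]
      rw [mem_ball_zero_iff, not_lt] at hx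
      rw [aa_zero hx, zero_mul, zero_mul]
  have h1 : (∫ x, aa x * g x) = ∫ x, aa x * (g x - m) := by
    have : (∫ x, aa x * (g x - m)) = (∫ x, aa x * g x) - ∫ x, aa x * m := by
      rw [← integral_sub hag (aa_integrable.mul_const m)]
      congr 1
      funext x
      ring
    rw [this, integral_mul_const, integral_aa_one, zero_mul, sub_zero]
  rw [h1]
  have h2 : |∫ x, aa x * (g x - m)| ≤ ∫ x, (Metric.ball (0 : ℂ) 1).indicator (fun x => 3 * |g x - m|) x := by
    rw [← Real.norm_eq_abs]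
    apply norm_integral_le_of_norm_le
    · have h3 : IntegrableOn (fun x => 3 * |g x - m|) (Metric.ball (0 : ℂ) 1) := hgm.abs.const_mul 3
      exact h3.integrable_indicator Metric.isOpen_ball.measurableSet
    · refine Filter.Eventually.of_forall (fun x => ?_)
      by_cases hx : x ∈ Metric.ball (0 : ℂ) 1
      · rw [indicator_of_mem hx, norm_mul]
        exact mul_le_mul_of_nonneg_right (abs_aa_le x) (norm_nonneg _)
      · rw [indicator_of_notMem hx]
        rw [mem_ball_zero_iff, not_lt] at hx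
        rw [aa_zero hx, zero_mul, norm_zero]
  refine h2.trans ?_
  rw [integral_indicator Metric.isOpen_ball.measurableSet, integral_const_mul]
  rw [setAverage_eq, smul_eq_mul, inv_mul_le_iff₀ hV] at hC
  linarith

/-- arbitrarily large mean oscillation -/
theorem main_C (C : ℝ) : ∃ f : ℂ → ℝ, Continuous f ∧ HasCompactSupport f ∧ (∀ x, |f x| ≤ 1) ∧
    ∃ g : ℂ → ℝ, (∀ x, Tendsto (fun ε : ℝ => ∫ y in {y : ℂ | ε < ‖y‖}, kern Ω y * f (x - y)) (𝓝[>] 0) (𝓝 (g x))) ∧
      ¬ (IntegrableOn g (Metric.ball (0 : ℂ) 1) ∧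
        (⨍ x in Metric.ball (0 : ℂ) 1, |g x - ⨍ y in Metric.ball (0 : ℂ) 1, g y|) ≤ C) := by
  set D := ∫ v in Ioi (0 : ℝ), WW v / v with hD
  have hDneg : D < 0 := Dinf_neg
  have hev : ∀ᶠ j : ℕ in atTop, DN (2 ^ (j + 1)) < D / 2 :=
    DN_tendsto.eventually_lt_const (by linarith)
  obtain ⟨j0, hj0⟩ := eventually_atTop.1 hev
  -- the harmonic tail
  have hdiv : Tendsto (fun J : ℕ => ∑ j ∈ Finset.Ico j0 J, (1 : ℝ) / ((j : ℝ) + 1)) atTop atTop := by
    have h1 : Tendsto (fun J : ℕ => ∑ j ∈ Finset.range J, (1 : ℝ) / ((j : ℝ) + 1)) atTop atTop :=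
      Real.tendsto_sum_range_one_div_nat_succ_atTop
    have h2 : Tendsto (fun J : ℕ => (∑ j ∈ Finset.range J, (1 : ℝ) / ((j : ℝ) + 1)) + -(∑ j ∈ Finset.range j0, (1 : ℝ) / ((j : ℝ) + 1))) atTop atTop :=
      tendsto_atTop_add_const_right _ _ h1
    refine h2.congr' ?_
    filter_upwards [eventually_ge_atTop j0] with J hJ
    rw [Finset.sum_Ico_eq_sub _ hJ]
    ring
  set V := volume.real (Metric.ball (0 : ℂ) 1)
  obtain ⟨J, hJ⟩ := (hdiv.eventually_gt_atTop ((3 * (V * C)) / (-(D / 2) * π))).exists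
  have hpos : 0 < -(D / 2) * π := mul_pos (by linarith) Real.pi_pos
  rw [div_lt_iff₀ hpos] at hJ
  set S := Finset.Ico j0 J
  refine ⟨ff S, (ff_contDiff S).continuous, ff_compact S, abs_ff_le S, gg Ω S, ?_, ?_⟩
  · intro x
    exact pv_tendsto hΩ (ff_contDiff S) (ff_compact S) (abs_ff_le S) x
  · rintro ⟨hi, hosc⟩
    have h1 := osc_bound (gg Ω S) hi C hosc
    rw [integral_aa_gg hΩ S] at h1
    have h2 : (∑ j ∈ S, DN (2 ^ (j + 1)) * (π / (j + 1))) ≤ (D / 2 * π) * ∑ j ∈ S, (1 : ℝ) / ((j : ℝ) + 1) := by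
      rw [Finset.mul_sum]
      apply Finset.sum_le_sum
      intro j hj
      have hj' := (hj0 j (Finset.mem_Ico.1 hj).1).le
      have hp : 0 ≤ π / ((j : ℝ) + 1) := by positivity
      calc DN (2 ^ (j + 1)) * (π / (j + 1)) ≤ D / 2 * (π / (j + 1)) := mul_le_mul_of_nonneg_right hj' hp
        _ = _ := by ring
    have h3 := (abs_le.1 h1).1
    nlinarith

end Pool.Agent.TH0.RV
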