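import Pool.Agent.TH0.RV.Dlim

set_option autoImplicit false

namespace Pool.Agent.TH0.RV

open MeasureTheory Real Set Filter Topology

theorem cos_diff {t : ℝ} (ht : |t| ≤ 1) : Real.cos t - Real.cos (t / 2) ≤ -(t ^ 2 / 4) := by
  have h1 := Real.cos_bound ht
  have h2 := Real.one_sub_sq_div_two_le_cos (x := t / 2)
  rw [abs_le] at h1
  have h3 : |t| ^ 4 ≤ t ^ 2 := by
    have : |t| ^ 4 = (t ^ 2) * (t ^ 2) := by
      rw [show |t| ^ 4 = (|t| ^ 2) * (|t| ^ 2) by ring, sq_abs]
    rw [this]
    have h4 : t ^ 2 ≤ 1 := by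
      rw [← sq_abs]; nlinarith [abs_nonneg t]
    nlinarith [sq_nonneg t]
  nlinarith [h1.2]

theorem im_sq_pos : 0 < ∫ x in Metric.ball (0 : ℂ) 1, x.im ^ 2 := by
  have hc : Continuous (fun x : ℂ => x.im ^ 2) := by fun_prop
  have hi : IntegrableOn (fun x : ℂ => x.im ^ 2) (Metric.ball (0 : ℂ) 1) := by
    refine Integrable.mono' (g := fun _ => (1 : ℝ)) (integrableOn_const measure_ball_lt_top.ne) hc.aestronglyMeasurable ?_
    refine (ae_restrict_iff' Metric.isOpen_ball.measurableSet).2 (Filter.Eventually.of_forall (fun x hx => ?_))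
    rw [mem_ball_zero_iff] at hx
    have := Complex.abs_im_le_norm x
    rw [Real.norm_eq_abs, abs_of_nonneg (sq_nonneg _), ← sq_abs]
    nlinarith [abs_nonneg x.im]
  rw [setIntegral_pos_iff_support_of_nonneg_ae (Filter.Eventually.of_forall (fun x => sq_nonneg _)) hi]
  have hsub : Metric.ball ((1 / 2 : ℝ) * Complex.I) (1 / 4) ⊆ Function.support (fun x : ℂ => x.im ^ 2) ∩ Metric.ball (0 : ℂ) 1 := by
    intro x hx
    rw [Metric.mem_ball, dist_eq_norm] at hx
    constructor
    · rw [Function.mem_support]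
      have h1 := (Complex.abs_im_le_norm (x - (1 / 2 : ℝ) * Complex.I)).trans hx.le
      have h2 : (x - (1 / 2 : ℝ) * Complex.I).im = x.im - 1 / 2 := by simp
      rw [h2, abs_le] at h1
      have : x.im ≠ 0 := by intro h; rw [h] at h1; linarith [h1.1]
      positivity
    · rw [mem_ball_zero_iff]
      have h3 : ‖((1 / 2 : ℝ) : ℂ) * Complex.I‖ = 1 / 2 := by
        rw [norm_mul, Complex.norm_I, mul_one, Complex.norm_real]; norm_num
      have h4 := norm_add_le (x - (1 / 2 : ℝ) * Complex.I) ((1 / 2 : ℝ) * Complex.I)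
      rw [sub_add_cancel, h3] at h4
      linarith
  exact lt_of_lt_of_le (Metric.measure_ball_pos volume _ (by norm_num)) (measure_mono hsub)

/-- the constant -/
noncomputable def c0 : ℝ := (1 / 16) * ∫ x in Metric.ball (0 : ℂ) 1, x.im ^ 2

theorem c0_pos : 0 < c0 := mul_pos (by norm_num) im_sq_pos

theorem WW_le {v : ℝ} (hv : 0 < v) : WW v ≤ -(c0 * chi v) := by
  by_cases h1 : v ≤ 1
  · rw [WW_eq, chi_zero_left h1]; simp
  by_cases h2 : 2 ≤ v
  · rw [WW_eq, chi_zero_right h2]; simp
  push Not at h1 h2
  rw [WW_eq]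
  have hc : Continuous (fun x : ℂ => Real.cos (x.im / v) - Real.cos (x.im / (2 * v))) := by fun_prop
  have hc2 : Continuous (fun x : ℂ => -((1 / 16) * x.im ^ 2)) := by fun_prop
  have key : (∫ x in Metric.ball (0 : ℂ) 1, (Real.cos (x.im / v) - Real.cos (x.im / (2 * v)))) ≤ -c0 := by
    have h3 : (∫ x in Metric.ball (0 : ℂ) 1, (Real.cos (x.im / v) - Real.cos (x.im / (2 * v)))) ≤
        ∫ x in Metric.ball (0 : ℂ) 1, -((1 / 16) * x.im ^ 2) := by
      apply setIntegral_mono_on
      · refine Integrable.mono' (g := fun _ => (2 : ℝ)) (integrableOn_const measure_ball_lt_top.ne) hc.aestronglyMeasurable (Filter.Eventually.of_forall (fun x => ?_))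
        rw [Real.norm_eq_abs]
        have e1 := Real.abs_cos_le_one (x.im / v)
        have e2 := Real.abs_cos_le_one (x.im / (2 * v))
        rw [abs_le] at e1 e2 ⊢
        constructor <;> linarith
      · refine Integrable.mono' (g := fun _ => (1 : ℝ)) (integrableOn_const measure_ball_lt_top.ne) hc2.aestronglyMeasurable ?_
        refine (ae_restrict_iff' Metric.isOpen_ball.measurableSet).2 (Filter.Eventually.of_forall (fun x hx => ?_))
        rw [mem_ball_zero_iff] at hx
        have := Complex.abs_im_le_norm x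
        rw [norm_neg, Real.norm_eq_abs, abs_of_nonneg (by positivity), ← sq_abs]
        nlinarith [abs_nonneg x.im]
      · exact Metric.isOpen_ball.measurableSet
      · intro x hx
        rw [mem_ball_zero_iff] at hx
        have h4 := Complex.abs_im_le_norm x
        have h5 : |x.im / v| ≤ 1 := by
          rw [abs_div, abs_of_pos hv, div_le_one hv]; linarith
        have h6 := cos_diff h5
        have h7 : x.im / v / 2 = x.im / (2 * v) := by field_simp
        rw [h7] at h6
        refine h6.trans ?_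
        have h8 : (1 / 16) * x.im ^ 2 ≤ (x.im / v) ^ 2 / 4 := by
          rw [div_pow, div_div, le_div_iff₀ (by positivity)]
          have : v ^ 2 ≤ 4 := by nlinarith
          nlinarith [sq_nonneg x.im]
        linarith
    refine h3.trans ?_
    rw [integral_neg, integral_const_mul]
    rfl
  have h9 := mul_le_mul_of_nonneg_left key (chi_nonneg v)
  linarith

theorem chi_div_int : IntegrableOn (fun v => chi v / v) (Ioi 0) := by
  have hm : Measurable (fun v : ℝ => chi v / v) := chi_continuous.measurable.div measurable_id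
  have hb : IntegrableOn ((Ioc (0 : ℝ) 3).indicator (fun _ => (1 : ℝ))) (Ioi 0) := by
    apply Integrable.integrableOn
    exact (integrableOn_const measure_Ioc_lt_top.ne).integrable_indicator measurableSet_Ioc
  refine Integrable.mono' hb hm.aestronglyMeasurable ?_
  refine (ae_restrict_iff' measurableSet_Ioi).2 (Filter.Eventually.of_forall (fun v hv => ?_))
  have hv' : 0 < v := hv
  by_cases h1 : v ≤ 1
  · rw [chi_zero_left h1, zero_div, norm_zero]
    exact indicator_nonneg (fun _ _ => zero_le_one) _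
  by_cases h2 : 2 ≤ v
  · rw [chi_zero_right h2, zero_div, norm_zero]
    exact indicator_nonneg (fun _ _ => zero_le_one) _
  push Not at h1 h2
  have hmem : v ∈ Ioc (0 : ℝ) 3 := ⟨hv', by linarith⟩
  rw [indicator_of_mem hmem, norm_div, Real.norm_eq_abs, Real.norm_eq_abs, abs_of_pos hv', abs_of_nonneg (chi_nonneg _),
    div_le_one hv']
  linarith [chi_le_one v]

theorem chi_div_pos : 0 < ∫ v in Ioi (0 : ℝ), chi v / v := by
  rw [setIntegral_pos_iff_support_of_nonneg_ae]
  · have hsub : Icc (5 / 4 : ℝ) (7 / 4) ⊆ Function.support (fun v : ℝ => chi v / v) ∩ Ioi 0 := by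
      intro v hv
      have hv0 : 0 < v := by linarith [hv.1]
      refine ⟨?_, hv0⟩
      rw [Function.mem_support, chi_one hv.1 hv.2]
      positivity
    refine lt_of_lt_of_le ?_ (measure_mono hsub)
    rw [Real.volume_Icc]
    norm_num
  · refine (ae_restrict_iff' measurableSet_Ioi).2 (Filter.Eventually.of_forall (fun v hv => ?_))
    exact div_nonneg (chi_nonneg v) (le_of_lt hv)
  · exact chi_div_int

theorem Dinf_neg : (∫ v in Ioi (0 : ℝ), WW v / v) < 0 := by
  have h1 : (∫ v in Ioi (0 : ℝ), WW v / v) ≤ ∫ v in Ioi (0 : ℝ), (-c0) * (chi v / v) := by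
    apply setIntegral_mono_on WW_integrable (chi_div_int.const_mul _) measurableSet_Ioi
    intro v hv
    have hv' : 0 < v := hv
    have := WW_le hv'
    rw [← mul_div_assoc, div_le_div_iff_of_pos_right hv']
    linarith
  refine lt_of_le_of_lt h1 ?_
  rw [integral_const_mul]
  have := mul_pos c0_pos chi_div_pos
  linarith

end Pool.Agent.TH0.RV
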