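import Pool.Agent.TH0.RV.Pair

set_option autoImplicit false

namespace Pool.Agent.TH0.RV

open MeasureTheory Real Set Filter Topology

variable {Ω : ℝ → ℝ} (hΩ : Ang Ω)
include hΩ

/-- the kernel has mean zero on annuli -/
theorem kern_annulus (ε R : ℝ) : (∫ y : ℂ, (if ε < ‖y‖ ∧ ‖y‖ ≤ R then 1 else 0) * kern Ω y) = 0 := by
  have h := integral_polar_prod (fun r => (if ε < r ∧ r ≤ R then (1 : ℝ) else 0) / r ^ 2) Ω
  rw [hΩ.zero, mul_zero] at h
  refine Eq.trans ?_ h
  congr 1
  funext y
  rw [kern]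
  ring

/-- integrability of dominated products with the kernel -/
theorem kern_mul_integrable (q : ℂ → ℝ) (hq : Measurable q) (L R : ℝ) (hL : 0 ≤ L)
    (h1 : ∀ y : ℂ, ‖y‖ ≤ 1 → |q y| ≤ L * ‖y‖) (h2 : ∀ y : ℂ, 1 ≤ ‖y‖ → |q y| ≤ L) (h3 : ∀ y : ℂ, R < ‖y‖ → q y = 0) :
    Integrable (fun y => kern Ω y * q y) := by
  have hh : Measurable (fun r : ℝ => (if r ≤ max R 1 then (1 : ℝ) else 0) * L / r) := by
    apply Measurable.div _ measurable_id
    exact (Measurable.ite (measurableSet_Iic : MeasurableSet (Iic (max R 1))) measurable_const measurable_const).mul_const L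
  have hi := integrable_polar_prod (fun r => (if r ≤ max R 1 then (1 : ℝ) else 0) * L / r) Ω hh hΩ.meas ?_ hΩ.int
  · refine Integrable.mono' hi.norm ((kern_meas hΩ).mul hq).aestronglyMeasurable (Filter.Eventually.of_forall (fun y => ?_))
    rw [norm_mul, norm_mul, norm_div, norm_mul]
    simp only [Real.norm_eq_abs, abs_norm]
    by_cases hy0 : y = 0
    · subst hy0
      simp [kern]
    have hy : 0 < ‖y‖ := norm_pos_iff.2 hy0
    by_cases hy3 : ‖y‖ ≤ max R 1
    · rw [if_pos hy3, abs_one, one_mul, abs_of_nonneg hL]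
      unfold kern
      rw [abs_div, abs_of_pos (by positivity : 0 < ‖y‖ ^ 2)]
      by_cases hy1 : ‖y‖ ≤ 1
      · have := h1 y hy1
        calc |Ω y.arg| / ‖y‖ ^ 2 * |q y| ≤ |Ω y.arg| / ‖y‖ ^ 2 * (L * ‖y‖) := by gcongr
          _ = L / ‖y‖ * |Ω y.arg| := by field_simp
      · push Not at hy1
        have := h2 y hy1.le
        calc |Ω y.arg| / ‖y‖ ^ 2 * |q y| ≤ |Ω y.arg| / ‖y‖ ^ 2 * L := by gcongr
          _ = (L / ‖y‖ * |Ω y.arg|) * (1 / ‖y‖) := by field_simp
          _ ≤ (L / ‖y‖ * |Ω y.arg|) * 1 := by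
              apply mul_le_mul_of_nonneg_left _ (by positivity)
              rw [div_le_one hy]; exact hy1.le
          _ = _ := by ring
    · have hy4 : R < ‖y‖ := by
        push Not at hy3
        exact lt_of_le_of_lt (le_max_left _ _) hy3
      rw [h3 y hy4, abs_zero, mul_zero]
      positivity
  · -- r * h r integrable
    refine Integrable.mono' (g := (Ioc (0 : ℝ) (max R 1)).indicator (fun _ => L)) ?_ (measurable_id.mul hh).aestronglyMeasurable ?_
    · apply Integrable.integrableOn
      exact (integrableOn_const measure_Ioc_lt_top.ne).integrable_indicator measurableSet_Ioc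
    · refine (ae_restrict_iff' measurableSet_Ioi).2 (Filter.Eventually.of_forall (fun r hr => ?_))
      have hr' : 0 < r := hr
      by_cases h : r ≤ max R 1
      · have hmem : r ∈ Ioc (0 : ℝ) (max R 1) := ⟨hr', h⟩
        rw [indicator_of_mem hmem, if_pos h]
        rw [one_mul, mul_div_cancel₀ _ hr'.ne', Real.norm_eq_abs, abs_of_nonneg hL]
      · rw [if_neg h]
        simp only [zero_mul, zero_div, mul_zero, norm_zero]
        exact indicator_nonneg (fun _ _ => hL) _

/-- regularised difference -/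
noncomputable def qq (f : ℂ → ℝ) (x y : ℂ) : ℝ := f (x - y) - f x * (if ‖y‖ ≤ 1 then 1 else 0)

omit hΩ in
theorem qq_meas {f : ℂ → ℝ} (hf : Continuous f) (x : ℂ) : Measurable (qq f x) := by
  unfold qq
  apply Measurable.sub
  · exact (hf.comp (continuous_const.sub continuous_id)).measurable
  · apply Measurable.const_mul
    exact Measurable.ite (measurableSet_le measurable_norm measurable_const) measurable_const measurable_const

theorem qq_integrable {f : ℂ → ℝ} (hf : ContDiff ℝ 1 f) (hc : HasCompactSupport f) (hb : ∀ x, |f x| ≤ 1) (x : ℂ) :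
    Integrable (fun y => kern Ω y * qq f x y) := by
  obtain ⟨K, hK⟩ := hf.lipschitzWith_of_hasCompactSupport hc (by norm_num)
  obtain ⟨ρ, hρ⟩ := hc.isBounded.subset_closedBall (0 : ℂ)
  have hzero : ∀ z : ℂ, ρ < ‖z‖ → f z = 0 := by
    intro z hz
    apply image_eq_zero_of_notMem_tsupport
    intro hmem
    have := hρ hmem
    rw [mem_closedBall_zero_iff] at this
    linarith
  apply kern_mul_integrable hΩ (qq f x) (qq_meas hf.continuous x) (max K 1) (max (ρ + ‖x‖) 1) (by positivity)
  · intro y hy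
    unfold qq
    rw [if_pos hy, mul_one]
    have h1 := hK.dist_le_mul (x - y) x
    rw [Real.dist_eq, dist_eq_norm] at h1
    have h2 : ‖x - y - x‖ = ‖y‖ := by rw [sub_sub_cancel_left, norm_neg]
    rw [h2] at h1
    refine h1.trans ?_
    gcongr
    exact le_max_left _ _
  · intro y hy
    unfold qq
    by_cases h1 : ‖y‖ ≤ 1
    · -- norm y = 1
      rw [if_pos h1, mul_one]
      have h3 := hK.dist_le_mul (x - y) x
      rw [Real.dist_eq, dist_eq_norm] at h3
      have h2 : ‖x - y - x‖ = ‖y‖ := by rw [sub_sub_cancel_left, norm_neg]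
      rw [h2] at h3
      refine h3.trans ?_
      calc (K : ℝ) * ‖y‖ ≤ K * 1 := by gcongr
        _ = K := mul_one _
        _ ≤ _ := le_max_left _ _
    · rw [if_neg h1, mul_zero, sub_zero]
      exact (hb _).trans (le_max_right _ _)
  · intro y hy
    unfold qq
    have h1 : 1 < ‖y‖ := lt_of_le_of_lt (le_max_right _ _) hy
    have h2 : ρ + ‖x‖ < ‖y‖ := lt_of_le_of_lt (le_max_left _ _) hy
    rw [if_neg (not_le.2 h1), mul_zero, sub_zero]
    apply hzero
    have := norm_sub_norm_le y x
    rw [norm_sub_rev]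
    linarith

/-- principal values exist -/
theorem pv_tendsto {f : ℂ → ℝ} (hf : ContDiff ℝ 1 f) (hc : HasCompactSupport f) (hb : ∀ x, |f x| ≤ 1) (x : ℂ) :
    Tendsto (fun ε : ℝ => ∫ y in {y : ℂ | ε < ‖y‖}, kern Ω y * f (x - y)) (𝓝[>] 0) (𝓝 (∫ y, kern Ω y * qq f x y)) := by
  have hq := qq_integrable hΩ hf hc hb x
  have hset : ∀ ε : ℝ, MeasurableSet {y : ℂ | ε < ‖y‖} := fun ε => measurableSet_lt measurable_const measurable_norm
  have h1 : Tendsto (fun ε : ℝ => ∫ y, {y : ℂ | ε < ‖y‖}.indicator (fun y => kern Ω y * qq f x y) y) (𝓝[>] 0)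
      (𝓝 (∫ y, kern Ω y * qq f x y)) := by
    apply tendsto_integral_filter_of_dominated_convergence (fun y => ‖kern Ω y * qq f x y‖)
    · refine Filter.Eventually.of_forall (fun ε => ?_)
      exact hq.aestronglyMeasurable.indicator (hset ε)
    · refine Filter.Eventually.of_forall (fun ε => Filter.Eventually.of_forall (fun y => ?_))
      exact norm_indicator_le_norm_self _ _
    · exact hq.norm
    · refine Filter.Eventually.of_forall (fun y => ?_)
      by_cases hy : y = 0
      · subst hy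
        have : kern Ω 0 = 0 := by simp [kern]
        simp only [this, zero_mul]
        refine tendsto_const_nhds.congr (fun ε => ?_)
        by_cases h : (0 : ℂ) ∈ {y : ℂ | ε < ‖y‖}
        · rw [indicator_of_mem h, this, zero_mul]
        · rw [indicator_of_notMem h]
      · have hy' : 0 < ‖y‖ := norm_pos_iff.2 hy
        refine tendsto_const_nhds.congr' ?_
        filter_upwards [Ioo_mem_nhdsGT hy'] with ε hε
        have : y ∈ {y : ℂ | ε < ‖y‖} := hε.2
        rw [indicator_of_mem this]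
  refine h1.congr' ?_
  filter_upwards [Ioo_mem_nhdsGT (show (0 : ℝ) < 1 by norm_num)] with ε hε
  rw [integral_indicator (hset ε)]
  -- compare
  have hkT : Integrable (fun y : ℂ => (if ε < ‖y‖ ∧ ‖y‖ ≤ 1 then 1 else 0) * kern Ω y) := by
    have hm : Measurable (fun y : ℂ => (if ε < ‖y‖ ∧ ‖y‖ ≤ 1 then (1 : ℝ) else 0)) := by
      apply Measurable.ite _ measurable_const measurable_const
      exact (measurableSet_lt measurable_const measurable_norm).inter (measurableSet_le measurable_norm measurable_const)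
    have h2 := kern_mul_integrable hΩ (fun y => (if ε < ‖y‖ ∧ ‖y‖ ≤ 1 then (1 : ℝ) else 0)) hm (1 / ε) 1 (by have := hε.1; positivity) ?_ ?_ ?_
    · refine h2.congr (Filter.Eventually.of_forall (fun y => ?_))
      simp only
      ring
    · intro y hy
      by_cases h : ε < ‖y‖ ∧ ‖y‖ ≤ 1
      · rw [if_pos h, abs_one]
        rw [one_div, inv_mul_eq_div, le_div_iff₀ hε.1]
        linarith [h.1]
      · rw [if_neg h, abs_zero]
        have := hε.1
        positivity
    · intro y hy
      have h3 : 1 ≤ 1 / ε := by rw [le_div_iff₀ hε.1]; linarith [hε.2]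
      by_cases h : ε < ‖y‖ ∧ ‖y‖ ≤ 1
      · rw [if_pos h, abs_one]; exact h3
      · rw [if_neg h, abs_zero]; linarith
    · intro y hy
      rw [if_neg]
      rintro ⟨-, h⟩
      linarith
  have hzero := kern_annulus hΩ ε 1
  have h3 : (∫ y in {y : ℂ | ε < ‖y‖}, kern Ω y * f (x - y)) =
      ∫ y in {y : ℂ | ε < ‖y‖}, (kern Ω y * qq f x y + f x * ((if ε < ‖y‖ ∧ ‖y‖ ≤ 1 then 1 else 0) * kern Ω y)) := by
    apply setIntegral_congr_fun (hset ε)
    intro y hy
    have hy' : ε < ‖y‖ := hy
    simp only [qq]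
    by_cases h : ‖y‖ ≤ 1
    · rw [if_pos h, if_pos ⟨hy', h⟩]; ring
    · rw [if_neg h, if_neg (fun hh => h hh.2)]; ring
  rw [h3, integral_add hq.integrableOn (hkT.const_mul _).integrableOn, integral_const_mul]
  have h4 : (∫ y in {y : ℂ | ε < ‖y‖}, (if ε < ‖y‖ ∧ ‖y‖ ≤ 1 then 1 else 0) * kern Ω y) =
      ∫ y : ℂ, (if ε < ‖y‖ ∧ ‖y‖ ≤ 1 then 1 else 0) * kern Ω y := by
    rw [← integral_indicator (hset ε)]
    congr 1
    funext y
    by_cases h : y ∈ {y : ℂ | ε < ‖y‖}
    · rw [indicator_of_mem h]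
    · rw [indicator_of_notMem h, if_neg (fun hh => h hh.1), zero_mul]
  rw [h4, hzero, mul_zero, add_zero]

end Pool.Agent.TH0.RV
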