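import Mathlib

set_option autoImplicit false

namespace Pool.Agent.TH0.RV

open MeasureTheory Real Set

theorem polar_norm {p : ℝ × ℝ} (hp : p ∈ Ioi (0 : ℝ) ×ˢ Ioo (-π) π) : ‖Complex.polarCoord.symm p‖ = p.1 := by
  rw [Complex.norm_polarCoord_symm]
  exact abs_of_pos hp.1

theorem polar_arg {p : ℝ × ℝ} (hp : p ∈ Ioi (0 : ℝ) ×ˢ Ioo (-π) π) : (Complex.polarCoord.symm p).arg = p.2 := by
  rw [Complex.polarCoord_symm_apply]
  have := Complex.arg_mul_cos_add_sin_mul_I hp.1 (⟨hp.2.1, hp.2.2.le⟩ : p.2 ∈ Ioc (-π) π)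
  push_cast at this ⊢
  exact this

theorem target_eq : polarCoord.target = Ioi (0 : ℝ) ×ˢ Ioo (-π) π := rfl

theorem Ioo_Ioc_integral (w : ℝ → ℝ) : (∫ θ in Ioo (-π) π, w θ) = ∫ θ in Ioc (-π) π, w θ := by
  rw [integral_Ioc_eq_integral_Ioo]

/-- integral of a product in polar coordinates -/
theorem integral_polar_prod (h w : ℝ → ℝ) :
    (∫ z : ℂ, h ‖z‖ * w z.arg) = (∫ r in Ioi (0 : ℝ), r * h r) * ∫ θ in Ioc (-π) π, w θ := by
  rw [← Complex.integral_comp_polarCoord_symm, target_eq]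
  have h1 : (∫ p in Ioi (0 : ℝ) ×ˢ Ioo (-π) π, p.1 • (h ‖Complex.polarCoord.symm p‖ * w (Complex.polarCoord.symm p).arg)) =
      ∫ p in Ioi (0 : ℝ) ×ˢ Ioo (-π) π, (p.1 * h p.1) * w p.2 := by
    apply setIntegral_congr_fun (measurableSet_Ioi.prod measurableSet_Ioo)
    intro p hp
    simp only
    rw [polar_norm hp, polar_arg hp, smul_eq_mul, mul_assoc]
  rw [h1, ← Ioo_Ioc_integral, Measure.volume_eq_prod, ← Measure.prod_restrict]
  exact integral_prod_mul (fun r => r * h r) w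

/-- integrability of a product in polar coordinates -/
theorem integrable_polar_prod (h w : ℝ → ℝ) (hh : Measurable h) (hw : Measurable w)
    (hi : IntegrableOn (fun r => r * h r) (Ioi 0)) (hwi : IntegrableOn w (Ioc (-π) π)) :
    Integrable (fun z : ℂ => h ‖z‖ * w z.arg) := by
  have hm : Measurable (fun z : ℂ => h ‖z‖ * w z.arg) :=
    (hh.comp measurable_norm).mul (hw.comp Complex.measurable_arg)
  refine ⟨hm.aestronglyMeasurable, ?_⟩
  unfold HasFiniteIntegral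
  rw [← Complex.lintegral_comp_polarCoord_symm, target_eq]
  have h1 : (∫⁻ p in Ioi (0 : ℝ) ×ˢ Ioo (-π) π, ENNReal.ofReal p.1 • ‖h ‖Complex.polarCoord.symm p‖ * w (Complex.polarCoord.symm p).arg‖ₑ) =
      ∫⁻ p in Ioi (0 : ℝ) ×ˢ Ioo (-π) π, ‖p.1 * h p.1‖ₑ * ‖w p.2‖ₑ := by
    apply setLIntegral_congr_fun (measurableSet_Ioi.prod measurableSet_Ioo)
    intro p hp
    simp only
    rw [polar_norm hp, polar_arg hp, smul_eq_mul, enorm_mul, enorm_mul, ← mul_assoc]
    congr 2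
    rw [Real.enorm_eq_ofReal_abs, abs_of_pos hp.1]
  rw [h1, Measure.volume_eq_prod, ← Measure.prod_restrict]
  have h2 := lintegral_prod_mul (μ := volume.restrict (Ioi (0 : ℝ))) (ν := volume.restrict (Ioo (-π) π))
    (f := fun r => ‖r * h r‖ₑ) (g := fun θ => ‖w θ‖ₑ) (measurable_id.mul hh).enorm.aemeasurable hw.enorm.aemeasurable
  rw [h2]
  apply ENNReal.mul_lt_top
  · exact hi.2
  · have := hwi.mono_set Ioo_subset_Ioc_self
    exact this.2

end Pool.Agent.TH0.RV
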