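import Pool.Agent.TH0.RV.Neg
import Pool.Agent.TH0.RV.Polar

set_option autoImplicit false

namespace Pool.Agent.TH0.RV

open MeasureTheory Real Set Filter Topology

theorem AN_rot (N : ℕ) (w : Circle) (y : ℂ) : AN N ((w : ℂ) * y) = (w : ℂ) ^ N * AN N y := by
  unfold AN
  have h := (rotation w).measurePreserving.integral_comp (rotation w).toHomeomorph.measurableEmbedding
    (fun x : ℂ => (aa x : ℂ) * EE N ((w : ℂ) * y - x))
  rw [← h, ← integral_const_mul]
  congr 1
  funext x
  have e1 : (rotation w) x = (w : ℂ) * x := rotation_apply w x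
  rw [e1, ← mul_sub, EE_mul N _ _ (Circle.norm_coe w), aa_congr (show ‖(w : ℂ) * x‖ = ‖x‖ by rw [norm_mul, Circle.norm_coe, one_mul])]
  ring

theorem AN_conj (N : ℕ) (y : ℂ) : AN N (starRingEnd ℂ y) = starRingEnd ℂ (AN N y) := by
  unfold AN
  have h := (Complex.conjLIE).measurePreserving.integral_comp (Complex.conjLIE).toHomeomorph.measurableEmbedding
    (fun x : ℂ => (aa x : ℂ) * EE N (starRingEnd ℂ y - x))
  rw [← h, ← integral_conj]
  congr 1
  funext x
  have e1 : Complex.conjLIE x = starRingEnd ℂ x := rfl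
  rw [e1, ← map_sub, EE_conj, map_mul, Complex.conj_ofReal, aa_congr (Complex.norm_conj x)]

theorem AN_re (N : ℕ) (y : ℂ) : (AN N y).re = eta N ‖y‖ * Real.cos (N * y.arg) := by
  have h1 : y = (Circle.exp y.arg : ℂ) * (‖y‖ : ℂ) := by
    rw [Circle.coe_exp, mul_comm]
    exact (Complex.norm_mul_exp_arg_mul_I y).symm
  have h2 : AN N y = (Circle.exp y.arg : ℂ) ^ N * AN N (‖y‖ : ℂ) := by
    conv_lhs => rw [h1]
    exact AN_rot N _ _
  have h3 : (AN N (‖y‖ : ℂ)).im = 0 := by
    have := AN_conj N (‖y‖ : ℂ)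
    rw [Complex.conj_ofReal] at this
    exact Complex.conj_eq_iff_im.1 this.symm
  have h4 : ((Circle.exp y.arg : ℂ) ^ N).re = Real.cos (N * y.arg) := by
    rw [Circle.coe_exp, ← Complex.exp_nat_mul, ← mul_assoc]
    have : (N : ℂ) * (y.arg : ℂ) = (((N : ℝ) * y.arg : ℝ) : ℂ) := by push_cast; rfl
    rw [this, Complex.exp_ofReal_mul_I_re]
  rw [h2, Complex.mul_re, h3, mul_zero, sub_zero, h4]
  unfold eta
  ring

/-- the rough kernel -/
noncomputable def kern (Ω : ℝ → ℝ) (z : ℂ) : ℝ := Ω z.arg / ‖z‖ ^ 2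

/-- hypotheses on the angular part -/
structure Ang (Ω : ℝ → ℝ) : Prop where
  meas : Measurable Ω
  sq : IntegrableOn (fun θ => Ω θ ^ 2) (Ioc (-π) π)
  zero : (∫ θ in Ioc (-π) π, Ω θ) = 0
  coef : ∀ j : ℕ, (∫ θ in Ioc (-π) π, Ω θ * Real.cos (((2 ^ (j + 1) : ℕ) : ℝ) * θ)) = π / (j + 1)

variable {Ω : ℝ → ℝ} (hΩ : Ang Ω)
include hΩ

theorem Ang.int : IntegrableOn Ω (Ioc (-π) π) := by
  refine Integrable.mono' (g := fun θ => 1 + Ω θ ^ 2) ?_ hΩ.meas.aestronglyMeasurable (Filter.Eventually.of_forall (fun θ => ?_))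
  · exact (integrableOn_const measure_Ioc_lt_top.ne).add hΩ.sq
  · rw [Real.norm_eq_abs]
    have : |Ω θ| ^ 2 = Ω θ ^ 2 := sq_abs _
    nlinarith [sq_nonneg (|Ω θ| - 1), sq_nonneg (|Ω θ|)]

theorem kern_meas : Measurable (kern Ω) :=
  (hΩ.meas.comp Complex.measurable_arg).div (measurable_norm.pow_const 2)

theorem integral_kern_AN {j : ℕ} :
    (∫ y, kern Ω y * (AN (2 ^ (j + 1)) y).re) = DN (2 ^ (j + 1)) * (π / (j + 1)) := by
  have h := integral_polar_prod (fun r => eta (2 ^ (j + 1)) r / r ^ 2) (fun θ => Ω θ * Real.cos (((2 ^ (j + 1) : ℕ) : ℝ) * θ))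
  rw [hΩ.coef j] at h
  rw [DN, ← h]
  congr 1
  funext y
  rw [AN_re, kern]
  ring

/-- truncated kernel -/
noncomputable def kT (Ω : ℝ → ℝ) (R : ℝ) (y : ℂ) : ℝ := (if 1 ≤ ‖y‖ ∧ ‖y‖ ≤ R then 1 else 0) * kern Ω y

theorem kT_integrable (R : ℝ) : Integrable (kT Ω R) := by
  have hh : Measurable (fun r : ℝ => (if 1 ≤ r ∧ r ≤ R then (1 : ℝ) else 0) / r ^ 2) := by
    apply Measurable.div _ (by fun_prop)
    exact Measurable.ite (measurableSet_Icc : MeasurableSet (Icc (1 : ℝ) R)) measurable_const measurable_const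
  have h := integrable_polar_prod (fun r => (if 1 ≤ r ∧ r ≤ R then (1 : ℝ) else 0) / r ^ 2) Ω hh hΩ.meas ?_ hΩ.int
  · refine h.congr (Filter.Eventually.of_forall (fun y => ?_))
    simp only [kT, kern]
    ring
  · refine Integrable.mono' (g := (Icc (1 : ℝ) R).indicator (fun _ => (1 : ℝ))) ?_ (measurable_id.mul hh).aestronglyMeasurable ?_
    · apply Integrable.integrableOn
      exact (integrableOn_const measure_Icc_lt_top.ne).integrable_indicator measurableSet_Icc
    · refine Filter.Eventually.of_forall (fun r => ?_)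
      by_cases h : 1 ≤ r ∧ r ≤ R
      · have hmem : r ∈ Icc (1 : ℝ) R := h
        rw [indicator_of_mem hmem, if_pos h]
        rw [Real.norm_eq_abs, abs_of_nonneg (by have := h.1; positivity)]
        have h1 : (0 : ℝ) < r := by linarith [h.1]
        rw [← mul_div_assoc, mul_one, div_le_one (by positivity)]
        nlinarith [h.1]
      · have hmem : r ∉ Icc (1 : ℝ) R := h
        rw [indicator_of_notMem hmem, if_neg h]
        simp

omit hΩ in
theorem kern_FF {N : ℕ} (hN : 2 ≤ N) {R : ℝ} (hR : 2 * (N : ℝ) + 1 ≤ R) {x : ℂ} (hx : ‖x‖ < 1) (y : ℂ) :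
    kern Ω y * FF N (x - y) = kT Ω R y * FF N (x - y) := by
  unfold kT
  by_cases h : 1 ≤ ‖y‖ ∧ ‖y‖ ≤ R
  · rw [if_pos h, one_mul]
  · rw [if_neg h, zero_mul, zero_mul]
    have hN' : (2 : ℝ) ≤ N := by exact_mod_cast hN
    have : FF N (x - y) = 0 := by
      unfold FF
      by_cases h1 : 1 ≤ ‖y‖
      · have h2 : R < ‖y‖ := by
          by_contra hcon
          exact h ⟨h1, not_lt.1 hcon⟩
        rw [EE_zero_of_ge (by omega), Complex.zero_re]
        have := norm_sub_norm_le y x
        rw [norm_sub_rev]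
        linarith
      · push Not at h1
        rw [EE_zero_of_le, Complex.zero_re]
        have := norm_sub_le x y
        linarith
    rw [this, mul_zero]

omit hΩ in
theorem FF_even {N : ℕ} (hN : Even N) (z : ℂ) : FF N (-z) = FF N z := by
  unfold FF; rw [EE_neg hN]

theorem pair_one (j : ℕ) :
    (∫ x, aa x * ∫ y, kern Ω y * FF (2 ^ (j + 1)) (x - y)) = DN (2 ^ (j + 1)) * (π / (j + 1)) := by
  set N := 2 ^ (j + 1) with hNdef
  have hN2 : 2 ≤ N := by
    calc 2 = 2 ^ 1 := by norm_num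
      _ ≤ 2 ^ (j + 1) := Nat.pow_le_pow_right (by norm_num) (by omega)
  have hEven : Even N := by rw [hNdef, pow_succ]; exact even_two.mul_left _
  set R : ℝ := 2 * (N : ℝ) + 1 with hR
  have hFm : Measurable (FF N) := (FF_contDiff (by omega)).continuous.measurable
  -- replace kern by kT
  have h1 : (∫ x, aa x * ∫ y, kern Ω y * FF N (x - y)) = ∫ x, ∫ y, aa x * kT Ω R y * FF N (x - y) := by
    congr 1
    funext x
    by_cases hx : ‖x‖ < 1
    · rw [← integral_const_mul]
      congr 1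
      funext y
      rw [kern_FF hN2 le_rfl hx y]
      ring
    · rw [aa_zero (not_lt.1 hx)]; simp
  rw [h1]
  have hprod : Integrable (fun p : ℂ × ℂ => aa p.1 * kT Ω R p.2) (volume.prod volume) :=
    aa_integrable.mul_prod (kT_integrable hΩ R)
  have hint : Integrable (fun p : ℂ × ℂ => aa p.1 * kT Ω R p.2 * FF N (p.1 - p.2)) (volume.prod volume) := by
    refine hprod.mul_bdd (c := 1) ?_ (Filter.Eventually.of_forall (fun p => abs_FF_le N _))
    exact (hFm.comp (measurable_fst.sub measurable_snd)).aestronglyMeasurable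
  rw [integral_integral_swap hint, ← integral_kern_AN hΩ]
  congr 1
  funext y
  have h2 : (AN N y).re = ∫ x, aa x * FF N (y - x) := by
    unfold AN
    have h3 := integral_re (integrand_integrable N (by omega) y)
    have h4 : (∫ x, (aa x : ℂ) * EE N (y - x)).re = ∫ x, ((aa x : ℂ) * EE N (y - x)).re := h3.symm
    rw [h4]
    congr 1
    funext x
    rw [Complex.re_ofReal_mul]
    rfl
  rw [h2]
  have h5 : (∫ x, aa x * kT Ω R y * FF N (x - y)) = kT Ω R y * ∫ x, aa x * FF N (y - x) := by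
    rw [← integral_const_mul]
    congr 1
    funext x
    rw [← FF_even hEven (x - y), neg_sub]
    ring
  rw [h5]
  -- now kT vs kern
  unfold kT
  by_cases h : 1 ≤ ‖y‖ ∧ ‖y‖ ≤ R
  · rw [if_pos h, one_mul]
  · rw [if_neg h, zero_mul, zero_mul]
    have h6 : (∫ x, aa x * FF N (y - x)) = 0 := by
      rw [← integral_zero ℂ ℝ]
      congr 1
      funext x
      by_cases hx : ‖x‖ < 1
      · have h7 : FF N (y - x) = 0 := by
          unfold FF
          have hN' : (2 : ℝ) ≤ N := by exact_mod_cast hN2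
          by_cases h1 : 1 ≤ ‖y‖
          · have h2 : R < ‖y‖ := by
              by_contra hcon
              exact h ⟨h1, not_lt.1 hcon⟩
            rw [EE_zero_of_ge (by omega), Complex.zero_re]
            have := norm_sub_norm_le y x
            linarith
          · push Not at h1
            rw [EE_zero_of_le, Complex.zero_re]
            have := norm_sub_le y x
            linarith
        rw [h7, mul_zero]
      · rw [aa_zero (not_lt.1 hx), zero_mul]
    rw [h6, mul_zero]

end Pool.Agent.TH0.RV
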