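import Mathlib

set_option autoImplicit false

namespace Pool.Agent.TH0.RV

open MeasureTheory Real Set

/-- bump on (1,2) -/
noncomputable def chiB : ContDiffBump (3 / 2 : ℝ) := ⟨1 / 4, 1 / 2, by norm_num, by norm_num⟩

/-- bump on (1,2) -/
noncomputable def chi (s : ℝ) : ℝ := chiB s

theorem chi_nonneg (s : ℝ) : 0 ≤ chi s := chiB.nonneg' s
theorem chi_le_one (s : ℝ) : chi s ≤ 1 := chiB.le_one
theorem chi_contDiff : ContDiff ℝ 1 chi := chiB.contDiff
theorem chi_continuous : Continuous chi := chi_contDiff.continuous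

theorem chi_zero_left {s : ℝ} (h : s ≤ 1) : chi s = 0 := by
  apply chiB.zero_of_le_dist
  rw [Real.dist_eq]
  show (1 / 2 : ℝ) ≤ _
  rw [abs_of_nonpos (by linarith)]
  linarith

theorem chi_zero_right {s : ℝ} (h : 2 ≤ s) : chi s = 0 := by
  apply chiB.zero_of_le_dist
  rw [Real.dist_eq]
  show (1 / 2 : ℝ) ≤ _
  rw [abs_of_nonneg (by linarith)]
  linarith

theorem chi_one {s : ℝ} (h1 : 5 / 4 ≤ s) (h2 : s ≤ 7 / 4) : chi s = 1 := by
  apply chiB.one_of_mem_closedBall
  rw [Metric.mem_closedBall, Real.dist_eq]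
  show _ ≤ (1 / 4 : ℝ)
  rw [abs_le]
  constructor <;> linarith

/-- complex test function -/
noncomputable def EE (N : ℕ) (z : ℂ) : ℂ := (chi (‖z‖ / N) : ℂ) * (z / (‖z‖ : ℂ)) ^ N

theorem norm_EE_le (N : ℕ) (z : ℂ) : ‖EE N z‖ ≤ 1 := by
  unfold EE
  rw [norm_mul, norm_pow, norm_div, Complex.norm_real, Complex.norm_real, norm_norm, Real.norm_eq_abs,
    abs_of_nonneg (chi_nonneg _)]
  have h1 : ‖z‖ / ‖z‖ ≤ 1 := div_self_le_one _
  have h2 : (‖z‖ / ‖z‖) ^ N ≤ 1 := pow_le_one₀ (by positivity) h1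
  calc chi (‖z‖ / N) * (‖z‖ / ‖z‖) ^ N ≤ 1 * 1 := mul_le_mul (chi_le_one _) h2 (by positivity) (by norm_num)
    _ = 1 := by norm_num

theorem EE_zero_of_le {N : ℕ} {z : ℂ} (h : ‖z‖ ≤ N) : EE N z = 0 := by
  unfold EE
  rw [chi_zero_left, Complex.ofReal_zero, zero_mul]
  rcases Nat.eq_zero_or_pos N with h0 | h0
  · subst h0; simp
  · rw [div_le_one (by exact_mod_cast h0)]; exact h

theorem EE_zero_of_ge {N : ℕ} (hN : 0 < N) {z : ℂ} (h : 2 * N ≤ ‖z‖) : EE N z = 0 := by
  unfold EE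
  rw [chi_zero_right, Complex.ofReal_zero, zero_mul]
  rw [le_div_iff₀ (by exact_mod_cast hN)]
  exact h

theorem EE_mul (N : ℕ) (w z : ℂ) (hw : ‖w‖ = 1) : EE N (w * z) = w ^ N * EE N z := by
  unfold EE
  rw [norm_mul, hw, one_mul, mul_div_assoc, mul_pow]
  ring

theorem EE_conj (N : ℕ) (z : ℂ) : EE N (starRingEnd ℂ z) = starRingEnd ℂ (EE N z) := by
  unfold EE
  rw [map_mul, map_pow, map_div₀, Complex.norm_conj, Complex.conj_ofReal, Complex.conj_ofReal]

theorem EE_neg {N : ℕ} (hN : Even N) (z : ℂ) : EE N (-z) = EE N z := by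
  unfold EE
  rw [norm_neg, neg_div, hN.neg_pow]

theorem EE_contDiff {N : ℕ} (hN : 0 < N) : ContDiff ℝ 1 (EE N) := by
  rw [contDiff_iff_contDiffAt]
  intro z
  by_cases hz : z = 0
  · subst hz
    have : EE N =ᶠ[nhds 0] fun _ => (0 : ℂ) := by
      filter_upwards [Metric.ball_mem_nhds (0 : ℂ) (show (0 : ℝ) < N by exact_mod_cast hN)] with w hw
      rw [mem_ball_zero_iff] at hw
      exact EE_zero_of_le hw.le
    exact contDiffAt_const.congr_of_eventuallyEq this
  · have hn : ContDiffAt ℝ 1 (fun z : ℂ => ‖z‖) z := contDiffAt_norm ℝ hz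
    have hnc : ContDiffAt ℝ 1 (fun z : ℂ => ((‖z‖ : ℝ) : ℂ)) z :=
      Complex.ofRealCLM.contDiff.contDiffAt.comp z hn
    have h1 : ContDiffAt ℝ 1 (fun z : ℂ => ((chi (‖z‖ / N) : ℝ) : ℂ)) z := by
      apply Complex.ofRealCLM.contDiff.contDiffAt.comp z
      exact chi_contDiff.contDiffAt.comp z (hn.div_const _)
    have h2 : ContDiffAt ℝ 1 (fun z : ℂ => z / ((‖z‖ : ℝ) : ℂ)) z := by
      have h3 : ((‖z‖ : ℝ) : ℂ) ≠ 0 := by exact_mod_cast norm_ne_zero_iff.2 hz
      have h4 := (contDiffAt_id (𝕜 := ℝ) (n := 1) (x := z)).mul (hnc.inv h3)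
      refine h4.congr_of_eventuallyEq (Filter.Eventually.of_forall (fun w => ?_))
      simp [div_eq_mul_inv]
    exact h1.mul (h2.pow N)

theorem EE_compact {N : ℕ} (hN : 0 < N) : HasCompactSupport (EE N) := by
  apply HasCompactSupport.intro (isCompact_closedBall (0 : ℂ) (2 * N))
  intro z hz
  rw [mem_closedBall_zero_iff, not_le] at hz
  exact EE_zero_of_ge hN hz.le

theorem EE_continuous {N : ℕ} (hN : 0 < N) : Continuous (EE N) := (EE_contDiff hN).continuous

/-- real test function -/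
noncomputable def FF (N : ℕ) (z : ℂ) : ℝ := (EE N z).re

theorem FF_contDiff {N : ℕ} (hN : 0 < N) : ContDiff ℝ 1 (FF N) :=
  Complex.reCLM.contDiff.comp (EE_contDiff hN)

theorem FF_compact {N : ℕ} (hN : 0 < N) : HasCompactSupport (FF N) := by
  apply HasCompactSupport.intro (isCompact_closedBall (0 : ℂ) (2 * N))
  intro z hz
  rw [mem_closedBall_zero_iff, not_le] at hz
  unfold FF
  rw [EE_zero_of_ge hN hz.le, Complex.zero_re]

theorem abs_FF_le (N : ℕ) (z : ℂ) : |FF N z| ≤ 1 :=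
  (Complex.abs_re_le_norm _).trans (norm_EE_le N z)

/-- sum of test functions over dyadic scales -/
noncomputable def ff (S : Finset ℕ) (z : ℂ) : ℝ := ∑ j ∈ S, FF (2 ^ (j + 1)) z

theorem ff_contDiff (S : Finset ℕ) : ContDiff ℝ 1 (ff S) := by
  apply ContDiff.sum
  intro j _
  exact FF_contDiff (by positivity)

theorem ff_compact (S : Finset ℕ) : HasCompactSupport (ff S) := by
  classical
  induction S using Finset.induction_on with
  | empty => 
    have : ff ∅ = 0 := by funext z; simp [ff]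
    rw [this]; exact HasCompactSupport.zero
  | insert j S hj ih =>
    have : ff (insert j S) = FF (2 ^ (j + 1)) + ff S := by
      funext z
      simp [ff, Finset.sum_insert hj]
    rw [this]
    exact (FF_compact (by positivity)).add ih

theorem abs_ff_le (S : Finset ℕ) (z : ℂ) : |ff S z| ≤ 1 := by
  unfold ff
  by_cases h : ∃ j ∈ S, FF (2 ^ (j + 1)) z ≠ 0
  · obtain ⟨j, hj, hne⟩ := h
    rw [Finset.sum_eq_single_of_mem j hj]
    · exact abs_FF_le _ _
    · intro i _ hij
      -- z lies in the annulus of j only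
      have h1 : ((2 ^ (j + 1) : ℕ) : ℝ) < ‖z‖ := by
        by_contra hcon
        apply hne
        unfold FF
        rw [EE_zero_of_le (not_lt.1 hcon), Complex.zero_re]
      have h2 : ‖z‖ < 2 * ((2 ^ (j + 1) : ℕ) : ℝ) := by
        by_contra hcon
        apply hne
        unfold FF
        rw [EE_zero_of_ge (by positivity) (not_lt.1 hcon), Complex.zero_re]
      rcases lt_or_gt_of_ne hij with h | h
      · unfold FF
        rw [EE_zero_of_ge (by positivity), Complex.zero_re]
        refine le_trans ?_ h1.le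
        push_cast
        rw [← pow_succ']
        exact pow_le_pow_right₀ (by norm_num) (by omega)
      · unfold FF
        rw [EE_zero_of_le, Complex.zero_re]
        refine h2.le.trans ?_
        push_cast
        rw [← pow_succ']
        exact pow_le_pow_right₀ (by norm_num) (by omega)
  · push Not at h
    rw [Finset.sum_eq_zero h]
    simp

theorem ff_zero_of_le (S : Finset ℕ) {z : ℂ} (hz : ‖z‖ ≤ 2) : ff S z = 0 := by
  unfold ff
  apply Finset.sum_eq_zero
  intro j _
  unfold FF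
  rw [EE_zero_of_le, Complex.zero_re]
  refine hz.trans ?_
  push_cast
  calc (2 : ℝ) = 2 ^ 1 := by norm_num
    _ ≤ 2 ^ (j + 1) := pow_le_pow_right₀ (by norm_num) (by omega)

end Pool.Agent.TH0.RV
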